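import Mathlib
import Pool.Agent.X323.VE.Basic
import Pool.Agent.X323.VE.Lin

set_option autoImplicit false

/-!
# A lower bound for the error term in Vojta's inequality which grows with the set of places
-/

namespace Pool.Agent.Results.MP_17a322_nt.ErrorTermGrowsWithS

open MvPolynomial

/-- `x` is a primitive integer vector; every rational point of a projective space is represented by
exactly two of them, `x` and `-x` -/
def IsPrimitive {M : ℕ} (x : Fin M → ℤ) : Prop :=
  Finset.univ.gcd x = 1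

/-- `max |x_i|`, the multiplicative height of the point given by a primitive `x` -/
def height {M : ℕ} (x : Fin M → ℤ) : ℕ :=
  Finset.univ.sup (fun i => (x i).natAbs)

/-- the value at `x` of the linear form with the coefficients `H` -/
def lin {M : ℕ} (H x : Fin M → ℤ) : ℤ := ∑ i, H i * x i

/-- The sum of the local heights at the infinite place and at the primes `p ∈ S` of the divisor
`F = 0` of degree `d`, where `z` is the value of `F` at the primitive vector `x`: the local height at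
the infinite place is `log (H(x) ^ d / |z|)`, the one at `p` is `-log |z|_p = v_p(z) log p`. -/
noncomputable def localHeights {M : ℕ} (d : ℕ) (S : Finset ℕ) (x : Fin M → ℤ) (z : ℤ) : ℝ :=
  Real.log ((height x : ℝ) ^ d / |(z : ℝ)|) + ∑ p ∈ S, (padicValInt p z : ℝ) * Real.log p

/-- The proximity function `m_{S ∪ {∞}, D}(x)` of the divisor `D` which is the sum of the hyperplanes
`H j = 0` and of the hypersurface `E = 0` of degree `e`. -/
noncomputable def proximity {M q : ℕ} (H : Fin q → Fin M → ℤ) (e : ℕ)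
    (E : MvPolynomial (Fin M) ℤ) (S : Finset ℕ) (x : Fin M → ℤ) : ℝ :=
  (∑ j, localHeights 1 S x (lin (H j) x)) + localHeights e S x (eval x E)

theorem le_height {M : ℕ} (x : Fin M → ℤ) (i : Fin M) : |(x i : ℝ)| ≤ height x := by
  have h : (x i).natAbs ≤ height x :=
    Finset.le_sup (f := fun i => (x i).natAbs) (Finset.mem_univ i)
  have h2 : (((x i).natAbs : ℕ) : ℝ) ≤ (height x : ℝ) := by exact_mod_cast h
  rwa [Nat.cast_natAbs, Int.cast_abs] at h2

theorem height_le {M : ℕ} (x : Fin M → ℤ) {B : ℝ} (hB : 0 ≤ B) (h : ∀ i, |(x i : ℝ)| ≤ B) :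
    (height x : ℝ) ≤ B := by
  have h1 : height x ≤ ⌊B⌋₊ := by
    refine Finset.sup_le fun i _ => ?_
    refine Nat.le_floor ?_
    rw [Nat.cast_natAbs, Int.cast_abs]
    exact h i
  exact le_trans (by exact_mod_cast h1) (Nat.floor_le hB)

theorem lin_le {M : ℕ} (H x : Fin M → ℤ) :
    |(lin H x : ℝ)| ≤ (∑ i, |(H i : ℝ)|) * height x := by
  unfold lin
  push_cast
  refine (Finset.abs_sum_le_sum_abs _ _).trans ?_
  rw [Finset.sum_mul]
  refine Finset.sum_le_sum fun i _ => ?_
  rw [abs_mul]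
  exact mul_le_mul_of_nonneg_left (le_height x i) (abs_nonneg _)

theorem eval_le {M : ℕ} {e : ℕ} (E : MvPolynomial (Fin M) ℤ) (hE : E.IsHomogeneous e)
    (x : Fin M → ℤ) :
    |((eval x E : ℤ) : ℝ)| ≤ (∑ s ∈ E.support, |((coeff s E : ℤ) : ℝ)|) * (height x : ℝ) ^ e := by
  rw [eval_eq]
  push_cast
  refine (Finset.abs_sum_le_sum_abs _ _).trans ?_
  rw [Finset.sum_mul]
  refine Finset.sum_le_sum fun s hs => ?_
  rw [abs_mul]
  refine mul_le_mul_of_nonneg_left ?_ (abs_nonneg _)
  rw [Finset.abs_prod]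
  have hdeg : ∑ i ∈ s.support, s i = e := by
    have := hE (mem_support_iff.1 hs)
    rw [← this, Finsupp.weight_apply, Finsupp.sum]
    simp
  calc ∏ i ∈ s.support, |((x i : ℝ)) ^ s i|
      ≤ ∏ i ∈ s.support, (height x : ℝ) ^ s i := by
        refine Finset.prod_le_prod (fun i _ => abs_nonneg _) fun i _ => ?_
        rw [abs_pow]
        exact pow_le_pow_left₀ (abs_nonneg _) (le_height x i) _
    _ = (height x : ℝ) ^ e := by rw [Finset.prod_pow_eq_pow_sum, hdeg]

theorem sum_nonneg' (S : Finset ℕ) (z : ℤ) :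
    0 ≤ ∑ p ∈ S, (padicValInt p z : ℝ) * Real.log p :=
  Finset.sum_nonneg fun p _ => mul_nonneg (Nat.cast_nonneg _) (Real.log_natCast_nonneg p)

/-- local heights are bounded below -/
theorem localHeights_ge {M : ℕ} (d : ℕ) (S : Finset ℕ) (x : Fin M → ℤ) (z : ℤ) (hz : z ≠ 0)
    (hx : 0 < height x) {L : ℝ} (hL : 0 < L) (hzL : |(z : ℝ)| ≤ L * (height x : ℝ) ^ d) (t : ℝ)
    (ht : t ≤ ∑ p ∈ S, (padicValInt p z : ℝ) * Real.log p) :
    t - Real.log L ≤ localHeights d S x z := by
  unfold localHeights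
  have hz' : (0 : ℝ) < |(z : ℝ)| := by positivity
  have hx' : (0 : ℝ) < (height x : ℝ) := by exact_mod_cast hx
  have h1 : Real.log (1 / L) ≤ Real.log ((height x : ℝ) ^ d / |(z : ℝ)|) := by
    refine Real.log_le_log (by positivity) ?_
    rw [div_le_div_iff₀ hL hz']
    linarith
  rw [one_div, Real.log_inv] at h1
  linarith


theorem eval_scale {R : Type} [CommRing R] {M d : ℕ} (F : MvPolynomial (Fin M) R)
    (hF : F.IsHomogeneous d) (g : R) (x : Fin M → R) :
    eval (fun i => g * x i) F = g ^ d * eval x F := by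
  rw [eval_eq, eval_eq, Finset.mul_sum]
  refine Finset.sum_congr rfl fun s hs => ?_
  have hdeg : ∑ i ∈ s.support, s i = d := by
    have := hF (mem_support_iff.1 hs)
    rw [← this, Finsupp.weight_apply, Finsupp.sum]
    simp
  rw [Finset.prod_congr rfl fun i _ => mul_pow g (x i) (s i), Finset.prod_mul_distrib,
    Finset.prod_pow_eq_pow_sum, hdeg]
  ring

theorem padic_eq {p : ℕ} (hp : p.Prime) (z : ℤ) :
    padicValInt p z = z.natAbs.factorization p := by
  rw [Nat.factorization_def _ hp]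
  rfl

/-- **Theorem.** Let `D` be the sum of `n + 2` hyperplanes `H j = 0` of `ℙ^n`, `n ≥ 1`, over `ℚ` in
general position and of an arbitrary further hypersurface `E = 0` (possibly none, `E = 1`), and let
`S` be a set of at least two primes. For every form `G ≠ 0` there are a constant `C` and infinitely
many rational points `x` (of arbitrarily large height) off `D` and off `G = 0` with
`m_{S ∪ {∞}, D}(x) + h_K(x) ≥ (#S - 1) log h(x) - C`, where `h_K = -(n + 1) h`. -/
theorem result (n : ℕ) (hn : 1 ≤ n) (H : Fin (n + 2) → Fin (n + 1) → ℤ)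
    (hH : ∀ j0 : Fin (n + 2), (Matrix.of fun j : Fin (n + 1) => H (j0.succAbove j)).det ≠ 0)
    (e : ℕ) (E : MvPolynomial (Fin (n + 1)) ℤ) (hE : E.IsHomogeneous e) (hE0 : E ≠ 0)
    (S : Finset ℕ) (hS : ∀ p ∈ S, p.Prime) (hS2 : 2 ≤ S.card)
    (δ : ℕ) (G : MvPolynomial (Fin (n + 1)) ℚ) (hG : G.IsHomogeneous δ) (hG0 : G ≠ 0) :
    ∃ C : ℝ, ∀ B : ℝ, ∃ x : Fin (n + 1) → ℤ, IsPrimitive x ∧ B ≤ Real.log (height x) ∧
      (∀ j, lin (H j) x ≠ 0) ∧ eval x E ≠ 0 ∧ eval (fun i => (x i : ℚ)) G ≠ 0 ∧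
      ((S.card : ℝ) - 1) * Real.log (Real.log (height x)) - C ≤
        proximity H e E S x + (-((n : ℝ) + 1) * Real.log (height x)) := by
  classical
  obtain ⟨A, c, γ, hA, hc, hγc, hlin, hlast, hsurj⟩ := Pool.Agent.X323.VE.relation hn H hH
  -- the primes
  obtain ⟨q, hqS⟩ : S.Nonempty := by
    rw [← Finset.card_pos]; omega
  have hq := hS q hqS
  set S0 := S.erase q with hS0
  have hS0c : S0.card = S.card - 1 := Finset.card_erase_of_mem hqS
  have hS0p : ∀ p ∈ S0, p.Prime := fun p hp => hS p (Finset.mem_of_mem_erase hp)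
  -- the last hyperplane
  have hlast0 : ∃ i, H (Fin.last (n + 1)) i ≠ 0 := by
    by_contra hcon
    push Not at hcon
    apply hH 0
    refine Matrix.det_eq_zero_of_row_eq_zero (Fin.last n) fun i => ?_
    simp only [Matrix.of_apply, Fin.succAbove_zero, Fin.succ_last]
    exact hcon i
  set Λ : MvPolynomial (Fin (n + 1)) ℚ :=
    ∑ i, C ((H (Fin.last (n + 1)) i : ℤ) : ℚ) * X i with hΛ
  have hΛe : ∀ z : Fin (n + 1) → ℚ, eval z Λ = ∑ i, ((H (Fin.last (n + 1)) i : ℤ) : ℚ) * z i := by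
    intro z
    rw [hΛ, map_sum]
    exact Finset.sum_congr rfl fun i _ => by rw [map_mul, eval_C, eval_X]
  have hΛ0 : Λ ≠ 0 := by
    intro h0
    obtain ⟨i, hi⟩ := hlast0
    have h1 := hΛe (Pi.single i 1)
    rw [h0, map_zero] at h1
    apply hi
    have h2 : ∑ j, ((H (Fin.last (n + 1)) j : ℤ) : ℚ) * (Pi.single i (1 : ℚ) : Fin (n + 1) → ℚ) j =
        ((H (Fin.last (n + 1)) i : ℤ) : ℚ) := by
      rw [Finset.sum_eq_single i]
      · rw [Pi.single_eq_same, mul_one]
      · intro j _ hj; rw [Pi.single_eq_of_ne hj, mul_zero]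
      · intro h; exact absurd (Finset.mem_univ i) h
    rw [h2] at h1
    exact_mod_cast h1.symm
  set E' : MvPolynomial (Fin (n + 1)) ℚ := E.map (Int.castRingHom ℚ) with hE'
  have hE'0 : E' ≠ 0 := by
    intro h0
    apply hE0
    exact (map_injective (Int.castRingHom ℚ) Int.cast_injective) (by rw [← hE', h0, map_zero])
  set P : MvPolynomial (Fin (n + 1)) ℚ := G * E' * Λ with hP
  have hP0 : P ≠ 0 := mul_ne_zero (mul_ne_zero hG0 hE'0) hΛ0
  set adj : Matrix (Fin (n + 1)) (Fin (n + 1)) ℚ := A.adjugate.map (Int.castRingHom ℚ) with hadj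
  set F : MvPolynomial (Fin (n + 1)) ℚ :=
    aeval (fun i => ∑ j, C (adj i j) * X j : Fin (n + 1) → MvPolynomial (Fin (n + 1)) ℚ) P with hF
  have hFe : ∀ y : Fin (n + 1) → ℚ, eval y F = eval (adj.mulVec y) P := by
    intro y
    rw [hF]
    have h1 : (fun i => eval y (∑ j, C (adj i j) * X j)) = adj.mulVec y := by
      funext i
      rw [map_sum, Matrix.mulVec, dotProduct]
      exact Finset.sum_congr rfl fun j _ => by rw [map_mul, eval_C, eval_X]
    rw [← h1, ← coe_aeval_eq_eval, ← coe_aeval_eq_eval, RingHom.coe_coe, RingHom.coe_coe,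
      ← comp_aeval_apply]
  have hF0 : F ≠ 0 := by
    intro h0
    apply hP0
    refine MvPolynomial.funext fun z => ?_
    obtain ⟨y, hy⟩ := hsurj z
    rw [map_zero, ← hy, ← hFe, h0, map_zero]
  set N := F.totalDegree with hN
  -- constants
  have hK : ∀ i, (1 : ℝ) ≤ |((A.det * c i : ℤ) : ℝ)| := by
    intro i
    have : A.det * c i ≠ 0 := mul_ne_zero hA (hc i)
    have h2 := Int.one_le_abs this
    exact_mod_cast h2
  set L1 : ℝ := ∑ i, |(H (Fin.last (n + 1)) i : ℝ)| with hL1
  have hL10 : 0 < L1 := by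
    obtain ⟨i, hi⟩ := hlast0
    refine lt_of_lt_of_le ?_ (Finset.single_le_sum (f := fun i => |(H (Fin.last (n + 1)) i : ℝ)|)
      (fun j _ => abs_nonneg _) (Finset.mem_univ i))
    have : (H (Fin.last (n + 1)) i : ℝ) ≠ 0 := by exact_mod_cast hi
    positivity
  set L2 : ℝ := ∑ s ∈ E.support, |((coeff s E : ℤ) : ℝ)| with hL2
  have hL20 : 0 < L2 := by
    obtain ⟨s, hs⟩ := support_nonempty.2 hE0
    refine lt_of_lt_of_le ?_ (Finset.single_le_sum (f := fun s => |((coeff s E : ℤ) : ℝ)|)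
      (fun j _ => abs_nonneg _) hs)
    have : ((coeff s E : ℤ) : ℝ) ≠ 0 := by exact_mod_cast mem_support_iff.1 hs
    positivity
  set K1 : ℝ := ∑ i, ∑ j, |((A.adjugate i j * c j : ℤ) : ℝ)| with hK1
  have hK10 : 0 ≤ K1 := Finset.sum_nonneg fun i _ => Finset.sum_nonneg fun j _ => abs_nonneg _
  set Q0 : ℕ := ∏ p ∈ S0, p with hQ0
  have hQ1 : 1 ≤ Q0 := Finset.prod_pos fun p hp => (hS0p p hp).pos
  have hQ1' : (1 : ℝ) ≤ Q0 := by exact_mod_cast hQ1
  set C2 : ℝ := |Real.log K1| + N * Real.log Q0 + 1 with hC2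
  have hlogQ0 : 0 ≤ Real.log Q0 := Real.log_nonneg hQ1'
  have hC21 : 1 ≤ C2 := by
    rw [hC2]
    have : 0 ≤ (N : ℝ) * Real.log Q0 := by positivity
    have := abs_nonneg (Real.log K1)
    linarith
  set C3 : ℝ := ∑ i, Real.log |((A.det * c i : ℤ) : ℝ)| with hC3
  set k0 : ℝ := Real.log |((A.det * c 0 : ℤ) : ℝ)| with hk0
  refine ⟨C3 + Real.log L1 + k0 + Real.log L2 + ((S.card : ℝ) - 1) * Real.log C2, fun B => ?_⟩
  have hlogq : 0 < Real.log q := Real.log_pos (by exact_mod_cast hq.one_lt)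
  obtain ⟨m, hm⟩ := exists_nat_ge ((|B| + 1 + Real.log L1 + k0) / Real.log q)
  have hm' : |B| + 1 + Real.log L1 + k0 ≤ m * Real.log q := by
    rwa [div_le_iff₀ hlogq] at hm
  obtain ⟨Eb, e1, e2, hEb1, hEbq, he1, he2, hne, hmod⟩ :=
    Pool.Agent.X323.VE.units hS0p (by omega) hq m
  set a : ℕ := ∏ p ∈ S0, p ^ e1 p with ha
  set b : ℕ := ∏ p ∈ S0, p ^ e2 p with hb
  have ha0 : 0 < a := Finset.prod_pos fun p hp => pow_pos (hS0p p hp).pos _
  have hb0 : 0 < b := Finset.prod_pos fun p hp => pow_pos (hS0p p hp).pos _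
  have hprime : ∀ e : ℕ → ℕ, ∀ r : ℕ, r.Prime → r ∣ ∏ p ∈ S0, p ^ e p → r ∈ S0 := by
    intro e r hr hd
    obtain ⟨p, hp, hd2⟩ := (hr.prime.dvd_finsetProd_iff _).1 hd
    have h3 := (Nat.prime_dvd_prime_iff_eq hr (hS0p p hp)).1 (hr.dvd_of_dvd_pow hd2)
    rw [h3]; exact hp
  obtain ⟨k, hkN, hk⟩ := Pool.Agent.X323.VE.grid F hF0 ha0 hb0 hne c hc
  rw [← hN] at hkN hk
  set s : Fin (n + 1) → ℕ := fun j => a ^ k j * b ^ (N - k j) with hs
  have hs0 : ∀ j, 0 < s j := fun j => by positivity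
  have hsS0 : ∀ j, ∀ r : ℕ, r.Prime → r ∣ s j → r ∈ S0 := by
    intro j r hr hd
    rcases (Nat.Prime.dvd_mul hr).1 hd with h | h
    · exact hprime e1 r hr (hr.dvd_of_dvd_pow h)
    · exact hprime e2 r hr (hr.dvd_of_dvd_pow h)
  set y : Fin (n + 1) → ℤ := fun j => c j * (s j : ℤ) with hy
  set x : Fin (n + 1) → ℤ := A.adjugate.mulVec y with hx
  have hxy : (fun i => (x i : ℚ)) = adj.mulVec (fun j => (y j : ℚ)) := by
    funext i
    rw [hx]
    simp only [Matrix.mulVec, dotProduct, hadj, Matrix.map_apply, Int.coe_castRingHom]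
    push_cast
    rfl
  have hPx : eval (fun i => (x i : ℚ)) P ≠ 0 := by
    rw [hxy, ← hFe]
    have h1 : (fun j => (y j : ℚ)) =
        fun i => (c i : ℚ) * (a : ℚ) ^ (k i) * (b : ℚ) ^ (N - k i) := by
      funext j
      simp only [hy, hs]
      push_cast
      ring
    rw [h1]
    exact hk
  -- the values of the linear forms
  have hlx : ∀ j : Fin (n + 1), lin (H j.castSucc) x = A.det * c j * (s j : ℤ) := by
    intro j
    have := hlin y j
    unfold lin
    rw [hx, this]
    simp only [hy]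
    ring
  have hlastx : lin (H (Fin.last (n + 1))) x = ∑ j, γ j * y j := hlast y
  have hdvd : ((q : ℤ) ^ m) ∣ lin (H (Fin.last (n + 1))) x := by
    rw [hlastx]
    have h1 : ((q : ℤ) ^ m) ∣ (b : ℤ) - a := by
      have h2 : a ≡ b [MOD q ^ m] := (ZMod.natCast_eq_natCast_iff a b (q ^ m)).1 hmod
      have h3 := (Nat.modEq_iff_dvd.1 h2)
      push_cast at h3
      exact h3
    have h2 : ∀ j, ((q : ℤ) ^ m) ∣ (s j : ℤ) - (a : ℤ) ^ N := by
      intro j
      have h3 : (s j : ℤ) - (a : ℤ) ^ N = (a : ℤ) ^ k j * ((b : ℤ) ^ (N - k j) -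
          (a : ℤ) ^ (N - k j)) := by
        simp only [hs]
        push_cast
        rw [mul_sub, ← pow_add, Nat.add_sub_cancel' (hkN j)]
      rw [h3]
      exact Dvd.dvd.mul_left (h1.trans (sub_dvd_pow_sub_pow _ _ _)) _
    have h3 : ∑ j, γ j * y j = ∑ j, γ j * c j * ((s j : ℤ) - (a : ℤ) ^ N) := by
      have h4 : ∑ j, γ j * c j * ((s j : ℤ) - (a : ℤ) ^ N) =
          ∑ j, γ j * y j - (∑ j, γ j * c j) * (a : ℤ) ^ N := by
        rw [Finset.sum_mul, ← Finset.sum_sub_distrib]
        exact Finset.sum_congr rfl fun j _ => by simp only [hy]; ring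
      rw [h4, hγc]
      ring
    rw [h3]
    exact Finset.dvd_sum fun j _ => Dvd.dvd.mul_left (h2 j) _
  -- the primitive vector
  obtain ⟨x', hx', hprim⟩ := Finset.extract_gcd x (s := (Finset.univ : Finset (Fin (n + 1))))
    Finset.univ_nonempty
  set g : ℤ := Finset.univ.gcd x with hg
  have hgx : ∀ i, x i = g * x' i := fun i => hx' i (Finset.mem_univ i)
  have hling : ∀ h : Fin (n + 1) → ℤ, lin h x = g * lin h x' := by
    intro h
    unfold lin
    rw [Finset.mul_sum]
    exact Finset.sum_congr rfl fun i _ => by rw [hgx i]; ring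
  have hl0 : ∀ j : Fin (n + 1), lin (H j.castSucc) x ≠ 0 := by
    intro j
    rw [hlx]
    have := (hs0 j).ne'
    exact mul_ne_zero (mul_ne_zero hA (hc j)) (by exact_mod_cast this)
  have hg0 : g ≠ 0 := by
    intro h0
    apply hl0 0
    rw [hling, h0, zero_mul]
  have hl0' : ∀ j : Fin (n + 1), lin (H j.castSucc) x' ≠ 0 := by
    intro j h0
    apply hl0 j
    rw [hling, h0, mul_zero]
  have hgq : ((fun i => (x i : ℚ)) : Fin (n + 1) → ℚ) = fun i => (g : ℚ) * (x' i : ℚ) := by
    funext i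
    rw [hgx i]
    push_cast
    rfl
  have hPx2 := hPx
  rw [hP, map_mul, map_mul] at hPx2
  have hGx : eval (fun i => (x i : ℚ)) G ≠ 0 := fun h => hPx2 (by rw [h]; ring)
  have hEx : eval (fun i => (x i : ℚ)) E' ≠ 0 := fun h => hPx2 (by rw [h]; ring)
  have hΛx : eval (fun i => (x i : ℚ)) Λ ≠ 0 := fun h => hPx2 (by rw [h]; ring)
  have hGx' : eval (fun i => (x' i : ℚ)) G ≠ 0 := by
    intro h
    apply hGx
    rw [hgq, eval_scale G hG, h, mul_zero]
  have hEx' : eval x' E ≠ 0 := by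
    intro h
    apply hEx
    have h1 : eval (fun i => (x i : ℚ)) E' = ((eval x E : ℤ) : ℚ) := by
      rw [hE', eval_map]
      exact (eval₂_comp_left (Int.castRingHom ℚ) (RingHom.id ℤ) x E).symm
    have h2 : x = fun i => g * x' i := funext hgx
    rw [h1, h2, eval_scale E hE, h, mul_zero, Int.cast_zero]
  have hΛx' : lin (H (Fin.last (n + 1))) x' ≠ 0 := by
    intro h
    apply hΛx
    have h1 : eval (fun i => (x i : ℚ)) Λ = ((lin (H (Fin.last (n + 1))) x : ℤ) : ℚ) := by
      rw [hΛe]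
      unfold lin
      push_cast
      rfl
    rw [h1, hling, h, mul_zero, Int.cast_zero]
  have hht : 0 < height x' := by
    by_contra h
    apply hl0' 0
    have h1 : height x' = 0 := by omega
    have h2 : ∀ i, x' i = 0 := by
      intro i
      have h3 : (x' i).natAbs ≤ height x' :=
        Finset.le_sup (f := fun i => (x' i).natAbs) (Finset.mem_univ i)
      rw [h1] at h3
      exact Int.natAbs_eq_zero.1 (by omega)
    unfold lin
    exact Finset.sum_eq_zero fun i _ => by rw [h2 i, mul_zero]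
  have hht' : (0 : ℝ) < height x' := by exact_mod_cast hht
  set h : ℝ := Real.log (height x') with hh
  -- the first hyperplanes
  have hfirst : ∀ j : Fin (n + 1), h - Real.log |((A.det * c j : ℤ) : ℝ)| ≤
      localHeights 1 S x' (lin (H j.castSucc) x') := by
    intro j
    set z := lin (H j.castSucc) x' with hz
    have hz0 : z ≠ 0 := hl0' j
    have h1 : z.natAbs ∣ (A.det * c j).natAbs * s j := by
      have h2 : z ∣ A.det * c j * (s j : ℤ) := by
        rw [← hlx j, hling]
        exact Dvd.intro_left _ rfl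
      have h3 := Int.natAbs_dvd_natAbs.2 h2
      rwa [Int.natAbs_mul, Int.natAbs_natCast] at h3
    have h2 := Pool.Agent.X323.VE.prime_part hS (w := z.natAbs) (K := (A.det * c j).natAbs)
      (s := s j) (Int.natAbs_ne_zero.2 hz0) (Int.natAbs_ne_zero.2 (mul_ne_zero hA (hc j)))
      (hs0 j).ne' (fun p hp hd => Finset.mem_of_mem_erase (hsS0 j p hp hd)) h1
    rw [Nat.cast_natAbs, Nat.cast_natAbs, Int.cast_abs, Int.cast_abs] at h2
    have h3 : ∑ p ∈ S, (padicValInt p z : ℝ) * Real.log p =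
        ∑ p ∈ S, (z.natAbs.factorization p : ℝ) * Real.log p :=
      Finset.sum_congr rfl fun p hp => by rw [padic_eq (hS p hp)]
    have hz' : (z : ℝ) ≠ 0 := by exact_mod_cast hz0
    unfold localHeights
    rw [h3, pow_one, Real.log_div hht'.ne' (abs_pos.2 hz').ne']
    linarith
  -- the last hyperplane
  set z := lin (H (Fin.last (n + 1))) x' with hz
  have hz' : (z : ℝ) ≠ 0 := by exact_mod_cast hΛx'
  have hvq : (m : ℝ) * Real.log q - k0 ≤ (padicValInt q z : ℝ) * Real.log q := by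
    have : Fact q.Prime := ⟨hq⟩
    have h1 : m ≤ padicValInt q g + padicValInt q z := by
      rw [← padicValInt.mul hg0 hΛx']
      have h2 := hdvd
      rw [hling] at h2
      rcases (padicValInt_dvd_iff m (g * z)).1 h2 with h3 | h3
      · exact absurd h3 (mul_ne_zero hg0 hΛx')
      · exact h3
    have h2 : (padicValInt q g : ℝ) * Real.log q ≤ k0 := by
      have h3 : ((q : ℤ) ^ padicValInt q g) ∣ g := by
        rw [padicValInt_dvd_iff]; right; exact le_refl _
      have h4 : g ∣ A.det * c 0 * (s 0 : ℤ) := by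
        rw [← hlx 0, hling]
        exact Dvd.intro _ rfl
      have h5 : IsCoprime ((q : ℤ) ^ padicValInt q g) (s 0 : ℤ) := by
        apply IsCoprime.pow_left
        rw [Nat.isCoprime_iff_coprime, hq.coprime_iff_not_dvd]
        intro hd
        exact Finset.notMem_erase q S (hsS0 0 q hq hd)
      have h6 := h5.dvd_of_dvd_mul_right (h3.trans h4)
      have h7 : A.det * c 0 ≠ 0 := mul_ne_zero hA (hc 0)
      have h8 := Int.le_of_dvd (abs_pos.2 h7) ((dvd_abs _ _).2 h6)
      have h9 : ((q : ℝ) ^ padicValInt q g) ≤ |((A.det * c 0 : ℤ) : ℝ)| := by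
        exact_mod_cast h8
      rw [← Real.log_pow]
      refine Real.log_le_log ?_ h9
      have := hq.pos
      positivity
    have h3 : (m : ℝ) ≤ padicValInt q g + padicValInt q z := by exact_mod_cast h1
    have h4 := mul_le_mul_of_nonneg_right h3 hlogq.le
    linarith
  have hvq2 : (m : ℝ) * Real.log q - k0 ≤ ∑ p ∈ S, (padicValInt p z : ℝ) * Real.log p :=
    hvq.trans (Finset.single_le_sum (f := fun p : ℕ => (padicValInt p z : ℝ) * Real.log p)
      (fun p _ => mul_nonneg (Nat.cast_nonneg _) (Real.log_natCast_nonneg p)) hqS)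
  have hlastge := localHeights_ge 1 S x' z hΛx' hht hL10 (by
    rw [pow_one]; exact lin_le _ _) _ hvq2
  have hEge := localHeights_ge e S x' (eval x' E) hEx' hht hL20 (eval_le E hE x') 0
    (sum_nonneg' S _)
  -- lower bound for the height
  have hhlow : (m : ℝ) * Real.log q - k0 - Real.log L1 ≤ h := by
    have h1 : ((q : ℝ) ^ padicValInt q z) ≤ |(z : ℝ)| := by
      have : Fact q.Prime := ⟨hq⟩
      have h3 : ((q : ℤ) ^ padicValInt q z) ∣ z := by
        rw [padicValInt_dvd_iff]; right; exact le_refl _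
      have h8 := Int.le_of_dvd (abs_pos.2 hΛx') ((dvd_abs _ _).2 h3)
      exact_mod_cast h8
    have h2 := h1.trans (lin_le (H (Fin.last (n + 1))) x')
    have h3 := Real.log_le_log (by have := hq.pos; positivity) h2
    rw [Real.log_pow, Real.log_mul hL10.ne' hht'.ne'] at h3
    linarith
  -- upper bound for the height
  have hE0' : (1 : ℝ) ≤ Eb := by exact_mod_cast hEb1
  have hhup : h ≤ C2 * Eb := by
    have hab : ∀ e : ℕ → ℕ, (∀ p ∈ S0, e p ≤ Eb) →
        ((∏ p ∈ S0, p ^ e p : ℕ) : ℝ) ≤ (Q0 : ℝ) ^ Eb := by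
      intro e he
      have : ∏ p ∈ S0, p ^ e p ≤ Q0 ^ Eb := by
        rw [hQ0, ← Finset.prod_pow]
        exact Finset.prod_le_prod' fun p hp => Nat.pow_le_pow_right (hS0p p hp).pos (he p hp)
      exact_mod_cast this
    have ha1 := hab e1 he1
    have hb1 := hab e2 he2
    rw [← ha] at ha1
    rw [← hb] at hb1
    have hs1 : ∀ j, (s j : ℝ) ≤ ((Q0 : ℝ) ^ Eb) ^ N := by
      intro j
      have h1 : (s j : ℝ) = (a : ℝ) ^ k j * (b : ℝ) ^ (N - k j) := by
        simp only [hs]; push_cast; ring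
      rw [h1]
      calc (a : ℝ) ^ k j * (b : ℝ) ^ (N - k j)
          ≤ ((Q0 : ℝ) ^ Eb) ^ k j * ((Q0 : ℝ) ^ Eb) ^ (N - k j) :=
            mul_le_mul (pow_le_pow_left₀ (Nat.cast_nonneg _) ha1 _)
              (pow_le_pow_left₀ (Nat.cast_nonneg _) hb1 _) (by positivity) (by positivity)
        _ = ((Q0 : ℝ) ^ Eb) ^ N := by rw [← pow_add, Nat.add_sub_cancel' (hkN j)]
    have hx1 : ∀ i, |(x i : ℝ)| ≤ K1 * ((Q0 : ℝ) ^ Eb) ^ N := by
      intro i
      have h1 : (x i : ℝ) = ∑ j, ((A.adjugate i j * c j : ℤ) : ℝ) * (s j : ℝ) := by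
        have h2 : x i = ∑ j, A.adjugate i j * c j * (s j : ℤ) := by
          rw [hx, Matrix.mulVec, dotProduct]
          exact Finset.sum_congr rfl fun j _ => by simp only [hy]; ring
        rw [h2]
        push_cast
        rfl
      rw [h1]
      refine (Finset.abs_sum_le_sum_abs _ _).trans ?_
      have h2 : ∑ j, |((A.adjugate i j * c j : ℤ) : ℝ) * (s j : ℝ)| ≤
          (∑ j, |((A.adjugate i j * c j : ℤ) : ℝ)|) * ((Q0 : ℝ) ^ Eb) ^ N := by
        rw [Finset.sum_mul]
        refine Finset.sum_le_sum fun j _ => ?_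
        rw [abs_mul, abs_of_nonneg (show (0 : ℝ) ≤ (s j : ℝ) from Nat.cast_nonneg _)]
        exact mul_le_mul_of_nonneg_left (hs1 j) (abs_nonneg _)
      refine h2.trans (mul_le_mul_of_nonneg_right ?_ (by positivity))
      exact Finset.single_le_sum
        (f := fun i => ∑ j, |((A.adjugate i j * c j : ℤ) : ℝ)|)
        (fun i _ => Finset.sum_nonneg fun j _ => abs_nonneg _) (Finset.mem_univ i)
    have hx2 : ∀ i, |(x' i : ℝ)| ≤ K1 * ((Q0 : ℝ) ^ Eb) ^ N := by
      intro i
      refine le_trans ?_ (hx1 i)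
      rw [hgx i]
      push_cast
      rw [abs_mul]
      have h1 : (1 : ℝ) ≤ |(g : ℝ)| := by exact_mod_cast Int.one_le_abs hg0
      nlinarith [abs_nonneg (x' i : ℝ)]
    have h1 := height_le x' (mul_nonneg hK10 (by positivity)) hx2
    have hK1pos : 0 < K1 := by
      rcases hK10.lt_or_eq with h | h
      · exact h
      · rw [← h, zero_mul] at h1
        linarith
    have hQ0pos : (0 : ℝ) < Q0 := by linarith
    have h2 := Real.log_le_log hht' h1
    rw [Real.log_mul hK1pos.ne' (by positivity), Real.log_pow, Real.log_pow] at h2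
    have h3 : Real.log K1 ≤ |Real.log K1| * Eb := by
      refine (le_abs_self _).trans ?_
      nlinarith [abs_nonneg (Real.log K1)]
    rw [hC2]
    nlinarith
  -- the error term
  have hhpos : 1 ≤ h := by
    have := abs_nonneg B
    linarith
  have hS1 : (1 : ℝ) ≤ S.card - 1 := by
    have : (2 : ℝ) ≤ S.card := by exact_mod_cast hS2
    linarith
  have hlogE : ((S.card : ℝ) - 1) * Real.log Eb ≤ m * Real.log q := by
    have h1 : ((Eb : ℝ)) ^ S0.card ≤ (q : ℝ) ^ m := by exact_mod_cast hEbq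
    have h2 := Real.log_le_log (by positivity) h1
    rw [Real.log_pow, Real.log_pow, hS0c] at h2
    have h3 : ((S.card - 1 : ℕ) : ℝ) = (S.card : ℝ) - 1 := by
      rw [Nat.cast_sub (by omega)]; norm_num
    rw [h3] at h2
    exact h2
  have hloglog : Real.log h ≤ Real.log C2 + Real.log Eb := by
    rw [← Real.log_mul (by linarith) (by linarith)]
    exact Real.log_le_log (by linarith) hhup
  have herr : ((S.card : ℝ) - 1) * Real.log h ≤
      ((S.card : ℝ) - 1) * Real.log C2 + m * Real.log q := by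
    have := mul_le_mul_of_nonneg_left hloglog (by linarith : (0 : ℝ) ≤ (S.card : ℝ) - 1)
    linarith
  refine ⟨x', hprim, ?_, ?_, hEx', hGx', ?_⟩
  · have := le_abs_self B
    linarith
  · intro j
    refine Fin.lastCases ?_ (fun i => ?_) j
    · exact hΛx'
    · exact hl0' i
  · unfold proximity
    rw [Fin.sum_univ_castSucc]
    have h1 : ((n : ℝ) + 1) * h - C3 ≤
        ∑ j : Fin (n + 1), localHeights 1 S x' (lin (H j.castSucc) x') := by
      have h2 := Finset.sum_le_sum (fun j (_ : j ∈ (Finset.univ : Finset (Fin (n + 1)))) => hfirst j)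
      rw [Finset.sum_sub_distrib, Finset.sum_const, Finset.card_univ, Fintype.card_fin,
        nsmul_eq_mul, Nat.cast_add, Nat.cast_one] at h2
      exact h2
    linarith

end Pool.Agent.Results.MP_17a322_nt.ErrorTermGrowsWithS
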