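import Mathlib
import Pool.Agent.Results.MP_17a322_nt.ErrorTermGrowsWithS

set_option autoImplicit false

/-!
# The exceptional set in Vojta's main conjecture for the plane and a conic plus two lines

`D` is the sum of the line `x_2 = 0`, the conic `x_0 x_1 = x_2 ^ 2` and any curve `F = 0` through the
point `(1 : 1 : 1)` of the conic, for example the line `x_0 = x_1`.
-/

namespace Pool.Agent.Results.MP_17a322_nt.ConicAndTwoLines

open MvPolynomial Pool.Agent.Results.MP_17a322_nt.ErrorTermGrowsWithS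

/-- The proximity function `m_{S ∪ {∞}, D}(x)` of the divisor `D` which is the sum of the line
`x_2 = 0`, the conic `x_0 x_1 = x_2 ^ 2` and the curve `F = 0` of degree `d`. -/
noncomputable def proximityD (d : ℕ) (F : MvPolynomial (Fin 3) ℤ) (S : Finset ℕ)
    (x : Fin 3 → ℤ) : ℝ :=
  localHeights 1 S x (x 2) + localHeights 2 S x (x 0 * x 1 - x 2 ^ 2) +
    localHeights d S x (eval x F)

/-- the factors of `1 - T ^ m` -/
noncomputable def psi (d : ℕ) : Polynomial ℤ :=
  if d = 1 then 1 - Polynomial.X else Polynomial.cyclotomic d ℤ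

/-- the product of some of the factors -/
noncomputable def fA (A : Finset ℕ) : Polynomial ℤ := ∏ d ∈ A, psi d

theorem psi_coeff_zero {d : ℕ} (hd : 0 < d) : (psi d).coeff 0 = 1 := by
  unfold psi
  split_ifs with h
  · simp
  · exact Polynomial.cyclotomic_coeff_zero ℤ (by omega)

theorem fA_coeff_zero {A : Finset ℕ} (hA : ∀ d ∈ A, 0 < d) : (fA A).coeff 0 = 1 := by
  unfold fA
  rw [Polynomial.coeff_zero_prod]
  exact Finset.prod_eq_one fun d hd => psi_coeff_zero (hA d hd)

theorem fA_mul {m : ℕ} (hm : 0 < m) {A : Finset ℕ} (hA : A ⊆ m.divisors) :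
    fA A * fA (m.divisors \ A) = 1 - Polynomial.X ^ m := by
  unfold fA
  rw [mul_comm, Finset.prod_sdiff hA]
  have h1 : (1 : ℕ) ∈ m.divisors := Nat.one_mem_divisors.2 hm.ne'
  rw [← Finset.mul_prod_erase _ _ h1]
  have h2 : ∏ d ∈ m.divisors.erase 1, psi d = ∏ d ∈ m.divisors.erase 1, Polynomial.cyclotomic d ℤ := by
    refine Finset.prod_congr rfl fun d hd => ?_
    rw [Finset.mem_erase] at hd
    unfold psi
    rw [if_neg hd.1]
  have h3 := Polynomial.prod_cyclotomic_eq_X_pow_sub_one hm ℤ
  rw [← Finset.mul_prod_erase _ _ h1, Polynomial.cyclotomic_one] at h3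
  rw [h2, psi, if_pos rfl]
  linear_combination -h3

/-- the product is nonzero at `t ≥ 2` -/
theorem one_le_abs_fA (A : Finset ℕ) {t : ℕ} (ht : 2 ≤ t) : (fA A).eval (t : ℤ) ≠ 0 := by
  unfold fA
  rw [Polynomial.eval_prod, Finset.prod_ne_zero_iff]
  intro d _
  unfold psi
  split_ifs with h
  · simp only [Polynomial.eval_sub, Polynomial.eval_one, Polynomial.eval_X]
    omega
  · exact (Polynomial.cyclotomic_pos_and_nonneg d (t : ℤ)).1 (by exact_mod_cast ht) |>.ne'

theorem fA_injOn {m : ℕ} : Set.InjOn (fun A : Finset ℕ => fA A) {A | A ⊆ m.divisors} := by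
  intro A hA B hB hAB
  have key : ∀ A B : Finset ℕ, A ⊆ m.divisors → B ⊆ m.divisors → fA A = fA B → A ⊆ B := by
    intro A B hA hB hAB d hd
    have hd0 : 0 < d := Nat.pos_of_mem_divisors (hA hd)
    have hz := Complex.isPrimitiveRoot_exp d hd0.ne'
    set z := Complex.exp (2 * Real.pi * Complex.I / d) with hzdef
    have hroot : ∀ e : ℕ, 0 < e → (Polynomial.aeval z (psi e) = 0 ↔ e = d) := by
      intro e he
      unfold psi
      split_ifs with h
      · subst h
        simp only [map_sub, map_one, Polynomial.aeval_X]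
        rw [sub_eq_zero]
        constructor
        · intro h1
          rw [← h1] at hz
          exact IsPrimitiveRoot.one.unique hz
        · intro h1
          rw [← h1] at hz
          exact (IsPrimitiveRoot.one_right_iff.1 hz).symm
      · have : NeZero ((e : ℕ) : ℂ) := ⟨by exact_mod_cast he.ne'⟩
        rw [Polynomial.aeval_def, Polynomial.eval₂_eq_eval_map, Polynomial.map_cyclotomic]
        have h2 := Polynomial.isRoot_cyclotomic_iff (n := e) (R := ℂ) (μ := z)
        rw [Polynomial.IsRoot.def] at h2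
        rw [h2]
        constructor
        · intro h3
          exact h3.unique hz
        · intro h3
          rw [h3]; exact hz
    have h1 : Polynomial.aeval z (fA A) = 0 := by
      unfold fA
      rw [map_prod]
      exact Finset.prod_eq_zero hd ((hroot d hd0).2 rfl)
    rw [hAB] at h1
    unfold fA at h1
    rw [map_prod, Finset.prod_eq_zero_iff] at h1
    obtain ⟨e, he, he2⟩ := h1
    have := (hroot e (Nat.pos_of_mem_divisors (hB he))).1 he2
    rwa [← this]
  exact Finset.Subset.antisymm (key A B hA hB hAB) (key B A hB hA hAB.symm)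

/-- the points on the curves -/
noncomputable def pt (m : ℕ) (A : Finset ℕ) (t : ℕ) : Fin 3 → ℤ :=
  ![(fA A).eval (t : ℤ), (fA (m.divisors \ A)).eval (t : ℤ), 1]

theorem pt_primitive (m : ℕ) (A : Finset ℕ) (t : ℕ) : IsPrimitive (pt m A t) := by
  unfold IsPrimitive
  have h : Finset.univ.gcd (pt m A t) ∣ pt m A t 2 := Finset.gcd_dvd (Finset.mem_univ _)
  have h2 : pt m A t 2 = 1 := by simp [pt]
  rw [h2] at h
  have h3 := Finset.normalize_gcd (s := (Finset.univ : Finset (Fin 3))) (f := pt m A t)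
  rw [← h3]
  exact normalize_eq_one.2 (isUnit_of_dvd_one h)

theorem pt_mul {m : ℕ} (hm : 0 < m) {A : Finset ℕ} (hA : A ⊆ m.divisors) (t : ℕ) :
    pt m A t 0 * pt m A t 1 = 1 - (t : ℤ) ^ m := by
  have h := congrArg (fun f => Polynomial.eval (t : ℤ) f) (fA_mul hm hA)
  simpa [pt] using h

theorem height_pt_pos (m : ℕ) (A : Finset ℕ) (t : ℕ) : 0 < height (pt m A t) := by
  have h := le_height (pt m A t) 2
  have h2 : pt m A t 2 = 1 := by simp [pt]
  rw [h2] at h
  have h3 : (1 : ℝ) ≤ (height (pt m A t) : ℝ) := by simpa using h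
  have h4 : (0 : ℝ) < (height (pt m A t) : ℝ) := by linarith
  exact_mod_cast h4

theorem height_pt_le {m : ℕ} (hm : 0 < m) {A : Finset ℕ} (hA : A ⊆ m.divisors) {t : ℕ}
    (ht : 2 ≤ t) : (height (pt m A t) : ℝ) ≤ (t : ℝ) ^ m := by
  have htR : (2 : ℝ) ≤ t := by exact_mod_cast ht
  have ht1 : (1 : ℝ) ≤ (t : ℝ) ^ m := one_le_pow₀ (by linarith)
  have h0 : pt m A t 0 ≠ 0 := by simpa [pt] using one_le_abs_fA A ht
  have h1 : pt m A t 1 ≠ 0 := by simpa [pt] using one_le_abs_fA (m.divisors \ A) ht
  have hprod : |((pt m A t 0 : ℤ) : ℝ)| * |((pt m A t 1 : ℤ) : ℝ)| ≤ (t : ℝ) ^ m := by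
    rw [← abs_mul, ← Int.cast_mul, pt_mul hm hA]
    push_cast
    rw [abs_sub_comm, abs_of_nonneg (by linarith)]
    linarith
  have g0 : (1 : ℝ) ≤ |((pt m A t 0 : ℤ) : ℝ)| := by
    have := Int.one_le_abs h0
    exact_mod_cast this
  have g1 : (1 : ℝ) ≤ |((pt m A t 1 : ℤ) : ℝ)| := by
    have := Int.one_le_abs h1
    exact_mod_cast this
  refine height_le _ (by positivity) fun i => ?_
  fin_cases i
  · exact le_trans (le_mul_of_one_le_right (abs_nonneg _) g1) hprod
  · exact le_trans (le_mul_of_one_le_left (abs_nonneg _) g0) hprod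
  · simpa [pt] using ht1

/-- evaluating an integer polynomial at points congruent modulo `t` -/
theorem eval_congr {t : ℤ} (F : MvPolynomial (Fin 3) ℤ) (x y : Fin 3 → ℤ)
    (h : ∀ i, t ∣ x i - y i) : t ∣ eval x F - eval y F := by
  induction F using MvPolynomial.induction_on with
  | C a => simp
  | add p q hp hq =>
    have : eval x (p + q) - eval y (p + q) = (eval x p - eval y p) + (eval x q - eval y q) := by
      simp only [map_add]; ring
    rw [this]
    exact dvd_add hp hq
  | mul_X p i hp =>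
    have : eval x (p * X i) - eval y (p * X i) =
        (eval x p - eval y p) * x i + eval y p * (x i - y i) := by
      simp only [map_mul, eval_X]; ring
    rw [this]
    exact dvd_add (Dvd.dvd.mul_right hp _) (Dvd.dvd.mul_left (h i) _)

theorem dvd_eval_pt {m : ℕ} {A : Finset ℕ} (hA : A ⊆ m.divisors)
    (F : MvPolynomial (Fin 3) ℤ) (hF : eval (fun _ => (1 : ℤ)) F = 0) (t : ℕ) :
    (t : ℤ) ∣ eval (pt m A t) F := by
  have key : ∀ B : Finset ℕ, B ⊆ m.divisors → (t : ℤ) ∣ (fA B).eval (t : ℤ) - 1 := by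
    intro B hB
    have h1 := Polynomial.sub_dvd_eval_sub (t : ℤ) 0 (fA B)
    rw [sub_zero, ← Polynomial.coeff_zero_eq_eval_zero,
      fA_coeff_zero (fun d hd => Nat.pos_of_mem_divisors (hB hd))] at h1
    exact h1
  have h := eval_congr (t := (t : ℤ)) F (pt m A t) (fun _ => 1) (by
    intro i
    fin_cases i
    · simpa [pt] using key A hA
    · simpa [pt] using key _ Finset.sdiff_subset
    · simp [pt])
  rwa [hF, sub_zero] at h

theorem sum_padic {S : Finset ℕ} (hS : ∀ p ∈ S, p.Prime) {q : ℕ} (hq : q ∈ S) (n : ℕ) (z : ℤ)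
    (hz : z ≠ 0) (h : ((q ^ n : ℕ) : ℤ) ∣ z) :
    Real.log ((q ^ n : ℕ) : ℝ) ≤ ∑ p ∈ S, (padicValInt p z : ℝ) * Real.log p := by
  have hqp := hS q hq
  have : Fact q.Prime := ⟨hqp⟩
  have h1 : n ≤ padicValInt q z := by
    have := (padicValInt_dvd_iff (p := q) n z).1 (by exact_mod_cast h)
    exact this.resolve_left hz
  calc Real.log ((q ^ n : ℕ) : ℝ) = (n : ℝ) * Real.log q := by
        rw [Nat.cast_pow, Real.log_pow]
    _ ≤ (padicValInt q z : ℝ) * Real.log q :=
        mul_le_mul_of_nonneg_right (by exact_mod_cast h1) (Real.log_natCast_nonneg q)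
    _ ≤ _ := Finset.single_le_sum (f := fun p => (padicValInt p z : ℝ) * Real.log p)
        (fun p _ => mul_nonneg (Nat.cast_nonneg _) (Real.log_natCast_nonneg p)) hq

/-- a nonzero polynomial does not vanish at `q ^ n`, `n` large -/
theorem eventually_ne {q : ℕ} (hq : 2 ≤ q) (P : Polynomial ℚ) (hP : P ≠ 0) :
    ∀ᶠ m : ℕ in Filter.atTop, P.eval ((q ^ m : ℕ) : ℚ) ≠ 0 := by
  rw [← Nat.cofinite_eq_atTop, Filter.eventually_cofinite]
  have h1 : {m : ℕ | ¬ P.eval ((q ^ m : ℕ) : ℚ) ≠ 0} =
      (fun m : ℕ => ((q ^ m : ℕ) : ℚ)) ⁻¹' {x | P.IsRoot x} := by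
    ext m
    simp [Polynomial.IsRoot]
  rw [h1]
  refine Set.Finite.preimage (fun m _ m' _ h => ?_) (Polynomial.finite_setOfPred_isRoot hP)
  have h2 : q ^ m = q ^ m' := by exact_mod_cast h
  exact Nat.pow_right_injective hq h2

/-- The plane with `D` = the line `x_2 = 0` + the conic `x_0 x_1 = x_2 ^ 2` + any curve `F = 0`
through `(1 : 1 : 1)`, for example the line `x_0 = x_1`. If Vojta's inequality
`m_{S ∪ {∞}, D}(x) + h_K(x) ≤ ε h(x) + C` holds at all rational points off `D` and off the curve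
`G = 0` of degree `δ`, then `δ + deg F ≥ 2 ^ (τ(m) - 1)` for every `m < 1 / ε`, `τ(m)` the number of
divisors of `m`. -/
theorem result (d : ℕ) (F : MvPolynomial (Fin 3) ℤ) (hF : F.IsHomogeneous d) (hF0 : F ≠ 0)
    (hF1 : eval (fun _ => (1 : ℤ)) F = 0) (S : Finset ℕ) (hS : ∀ p ∈ S, p.Prime)
    (hSne : S.Nonempty) (ε C : ℝ) (hε : 0 < ε)
    (δ : ℕ) (G : MvPolynomial (Fin 3) ℚ) (hG : G.IsHomogeneous δ) (hG0 : G ≠ 0)
    (hV : ∀ x : Fin 3 → ℤ, IsPrimitive x → x 2 ≠ 0 → x 0 * x 1 - x 2 ^ 2 ≠ 0 → eval x F ≠ 0 →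
      eval (fun i => (x i : ℚ)) G ≠ 0 →
      proximityD d F S x + (-3 * Real.log (height x)) ≤ ε * Real.log (height x) + C)
    (m : ℕ) (hm : 0 < m) (hmε : (m : ℝ) * ε < 1) :
    2 ^ m.divisors.card ≤ 2 * (δ + d) := by
  classical
  obtain ⟨q, hqS⟩ := hSne
  have hqp := hS q hqS
  -- the product of the two forms
  set H : MvPolynomial (Fin 3) ℚ := MvPolynomial.map (Int.castRingHom ℚ) F * G with hH
  have hFQ0 : MvPolynomial.map (Int.castRingHom ℚ) F ≠ 0 := by
    intro h
    apply hF0
    exact MvPolynomial.map_injective _ (RingHom.injective_int _) (by rw [h, map_zero])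
  have hH0 : H ≠ 0 := mul_ne_zero hFQ0 hG0
  have hHhom : H.IsHomogeneous (δ + d) := by
    rw [add_comm]
    exact (hF.map _).mul hG
  -- evaluation of a composition
  have hcomp : ∀ {R T : Type} [CommRing R] [CommRing T] (g : R →+* T) (f : ℚ →+* R)
      (v : Fin 3 → R) (w : Fin 3 → T), (∀ i, g (v i) = w i) →
      g (MvPolynomial.eval₂ f v H) = MvPolynomial.eval₂ (g.comp f) w H := by
    intro R T _ _ g f v w hw
    rw [MvPolynomial.hom_eval₂]
    congr 1
    funext i
    exact hw i
  -- the form vanishes on the curves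
  have hvan : ∀ A ⊆ m.divisors, MvPolynomial.eval₂ (Polynomial.C : ℚ →+* Polynomial ℚ)
      (![(fA A).map (Int.castRingHom ℚ), (fA (m.divisors \ A)).map (Int.castRingHom ℚ), 1] :
        Fin 3 → Polynomial ℚ) H = 0 := by
    intro A hA
    by_contra hne
    have h1 := eventually_ne hqp.two_le _ hne
    have hev : ∀ t : ℕ, (MvPolynomial.eval₂ (Polynomial.C : ℚ →+* Polynomial ℚ)
      (![(fA A).map (Int.castRingHom ℚ), (fA (m.divisors \ A)).map (Int.castRingHom ℚ), 1] :
        Fin 3 → Polynomial ℚ) H).eval ((t : ℕ) : ℚ) =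
        eval (fun i => ((pt m A t i : ℤ) : ℚ)) H := by
      intro t
      have h4 : ∀ B : Finset ℕ, ((fA B).map (Int.castRingHom ℚ)).eval ((t : ℕ) : ℚ) =
          (((fA B).eval (t : ℤ) : ℤ) : ℚ) := by
        intro B
        simp
      have h5 := hcomp (Polynomial.evalRingHom ((t : ℕ) : ℚ)) (Polynomial.C : ℚ →+* Polynomial ℚ)
        (![(fA A).map (Int.castRingHom ℚ), (fA (m.divisors \ A)).map (Int.castRingHom ℚ), 1] :
        Fin 3 → Polynomial ℚ) (fun i => ((pt m A t i : ℤ) : ℚ)) (by
          intro i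
          fin_cases i
          · exact h4 A
          · exact h4 (m.divisors \ A)
          · simp [pt])
      rw [Polynomial.coe_evalRingHom] at h5
      rw [h5]
      have h6 : (Polynomial.evalRingHom ((t : ℕ) : ℚ)).comp (Polynomial.C : ℚ →+* Polynomial ℚ) =
        RingHom.id ℚ := by ext; simp
      rw [h6]
      rfl
    set L : ℝ := ∑ s ∈ F.support, |((coeff s F : ℤ) : ℝ)| with hL
    have hLpos : 0 < L := by
      obtain ⟨s, hs⟩ := MvPolynomial.support_nonempty.2 hF0
      refine Finset.sum_pos' (fun _ _ => abs_nonneg _) ⟨s, hs, ?_⟩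
      rw [abs_pos]
      exact_mod_cast MvPolynomial.mem_support_iff.1 hs
    have hkey : ∀ n : ℕ, 1 ≤ n → eval (fun i => ((pt m A (q ^ n) i : ℤ) : ℚ)) H ≠ 0 →
        (1 - m * ε) * Real.log ((q ^ n : ℕ) : ℝ) ≤ C + Real.log L := by
      intro n hn hne'
      have ht : 2 ≤ q ^ n := hqp.two_le.trans (Nat.le_self_pow (by omega) q)
      set x := pt m A (q ^ n) with hx
      have hx2 : x 2 = 1 := by simp [hx, pt]
      have hconic : x 0 * x 1 - x 2 ^ 2 = -(((q ^ (n * m) : ℕ)) : ℤ) := by
        rw [hx2, hx, pt_mul hm hA]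
        push_cast
        rw [pow_mul]
        ring
      have hq0 : q ≠ 0 := hqp.ne_zero
      have hconic0 : x 0 * x 1 - x 2 ^ 2 ≠ 0 := by
        rw [hconic, neg_ne_zero]
        exact_mod_cast pow_ne_zero _ hq0
      rw [hH, map_mul] at hne'
      have hFx : eval x F ≠ 0 := by
        intro h0
        apply left_ne_zero_of_mul hne'
        rw [MvPolynomial.eval_map]
        have := MvPolynomial.hom_eval₂ F (RingHom.id ℤ) (Int.castRingHom ℚ) x
        have h1 : MvPolynomial.eval₂ (RingHom.id ℤ) x F = 0 := h0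
        rw [h1, map_zero] at this
        rw [RingHom.comp_id] at this
        exact this.symm
      have hGx := right_ne_zero_of_mul hne'
      have hh := hV x (pt_primitive _ _ _) (by rw [hx2]; exact one_ne_zero) hconic0 hFx hGx
      have hpos : 0 < height x := height_pt_pos m A (q ^ n)
      have hposR : (0 : ℝ) < height x := by exact_mod_cast hpos
      have e1 : localHeights 1 S x (x 2) = Real.log (height x) := by
        unfold localHeights
        rw [hx2]
        simp
      have e2 : 2 * Real.log (height x) ≤ localHeights 2 S x (x 0 * x 1 - x 2 ^ 2) := by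
        unfold localHeights
        have h3 := sum_padic hS hqS (n * m) (x 0 * x 1 - x 2 ^ 2) hconic0 (by
          rw [hconic]; exact (dvd_neg.2 dvd_rfl))
        have hqR : (0 : ℝ) < ((q ^ (n * m) : ℕ) : ℝ) := by
          exact_mod_cast Nat.pos_of_ne_zero (pow_ne_zero _ hq0)
        have h4 : |((x 0 * x 1 - x 2 ^ 2 : ℤ) : ℝ)| = ((q ^ (n * m) : ℕ) : ℝ) := by
          rw [hconic, Int.cast_neg, abs_neg, Int.cast_natCast, abs_of_pos hqR]
        rw [h4, Real.log_div (by positivity) hqR.ne', Real.log_pow]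
        push_cast at h3 ⊢
        linarith
      have e3 : Real.log ((q ^ n : ℕ) : ℝ) - Real.log L ≤ localHeights d S x (eval x F) :=
        localHeights_ge d S x _ hFx hpos hLpos (eval_le F hF x) _
          (sum_padic hS hqS n _ hFx (dvd_eval_pt hA F hF1 (q ^ n)))
      have e4 : Real.log (height x) ≤ m * Real.log ((q ^ n : ℕ) : ℝ) := by
        rw [← Real.log_pow]
        exact Real.log_le_log hposR (height_pt_le hm hA ht)
      unfold proximityD at hh
      have e5 : ε * Real.log (height x) ≤ ε * (m * Real.log ((q ^ n : ℕ) : ℝ)) :=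
        mul_le_mul_of_nonneg_left e4 hε.le
      linarith
    have hlim : Filter.Tendsto (fun n : ℕ => ((q ^ n : ℕ) : ℝ)) Filter.atTop Filter.atTop :=
      tendsto_natCast_atTop_atTop.comp (tendsto_pow_atTop_atTop_of_one_lt hqp.one_lt)
    have hlog : Filter.Tendsto (fun n : ℕ => Real.log ((q ^ n : ℕ) : ℝ)) Filter.atTop
        Filter.atTop := Real.tendsto_log_atTop.comp hlim
    have hk : 0 < 1 - m * ε := by linarith
    obtain ⟨n, hn1, hn2, hn3⟩ := (h1.and ((hlog.eventually_gt_atTop
      ((C + Real.log L) / (1 - m * ε))).and (Filter.eventually_ge_atTop 1))).exists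
    rw [hev] at hn1
    have h7 := hkey n hn3 hn1
    rw [div_lt_iff₀ hk] at hn2
    linarith
  -- the polynomial in one variable
  set HC : MvPolynomial (Fin 3) (Polynomial ℚ) :=
    MvPolynomial.map (Polynomial.C : ℚ →+* Polynomial ℚ) H with hHC
  set v : Fin 3 → Polynomial (Polynomial ℚ) :=
    ![Polynomial.X ^ 2, Polynomial.C (1 - Polynomial.X ^ m), Polynomial.X] with hv
  set P : Polynomial (Polynomial ℚ) := MvPolynomial.aeval v HC with hP
  have hPe : P = MvPolynomial.eval₂
      ((Polynomial.C : Polynomial ℚ →+* Polynomial (Polynomial ℚ)).comp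
        (Polynomial.C : ℚ →+* Polynomial ℚ)) v H := by
    rw [hP, MvPolynomial.aeval_def, hHC, MvPolynomial.eval₂_map]
    rfl
  have hPdeg : P.natDegree ≤ (δ + d) * 2 := by
    refine MvPolynomial.aeval_natDegree_le (m := δ + d) (n := 2) HC
      ((hHhom.map _).totalDegree_le) v (fun j => ?_)
    fin_cases j
    · simp [hv]
    · change (Polynomial.C (1 - Polynomial.X ^ m : Polynomial ℚ)).natDegree ≤ 2
      rw [Polynomial.natDegree_C]
      omega
    · simp [hv]
  have hP0 : P ≠ 0 := by
    intro h0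
    apply hH0
    have hCH : MvPolynomial.map (algebraMap ℚ ℂ) H = 0 := by
      have h1 : ∀ z : Fin 3 → ℂ, z 0 ≠ 0 → z 2 ≠ 0 →
          eval z (MvPolynomial.map (algebraMap ℚ ℂ) H) = 0 := by
        intro z hz0 hz2
        obtain ⟨τ, hτ⟩ := IsAlgClosed.exists_pow_nat_eq (1 - z 0 * z 1 / z 2 ^ 2) hm
        have h2 := hcomp (Polynomial.eval₂RingHom (Polynomial.eval₂RingHom (algebraMap ℚ ℂ) τ)
          (z 0 / z 2)) ((Polynomial.C : Polynomial ℚ →+* Polynomial (Polynomial ℚ)).comp
            (Polynomial.C : ℚ →+* Polynomial ℚ)) v (fun i => z 0 / z 2 ^ 2 * z i) (by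
          intro i
          fin_cases i
          · simp only [hv, Fin.zero_eta, Matrix.cons_val_zero, map_pow,
              Polynomial.coe_eval₂RingHom, Polynomial.eval₂_X]
            field_simp
          · simp only [hv, Fin.mk_one, Matrix.cons_val_one, Polynomial.coe_eval₂RingHom,
              Polynomial.eval₂_C, Matrix.cons_val_zero, Polynomial.eval₂_sub,
              Polynomial.eval₂_one, Polynomial.eval₂_X_pow, hτ]
            field_simp
            ring
          · simp [hv]
            field_simp)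
        rw [← hPe, h0, map_zero] at h2
        have h3 : (Polynomial.eval₂RingHom (Polynomial.eval₂RingHom (algebraMap ℚ ℂ) τ)
          (z 0 / z 2)).comp ((Polynomial.C : Polynomial ℚ →+* Polynomial (Polynomial ℚ)).comp
            (Polynomial.C : ℚ →+* Polynomial ℚ)) = algebraMap ℚ ℂ := by
          ext; simp
        rw [h3, ← MvPolynomial.eval_map] at h2
        rw [eval_scale _ (hHhom.map _)] at h2
        refine (mul_eq_zero.1 h2.symm).resolve_left (pow_ne_zero _ ?_)
        exact div_ne_zero hz0 (pow_ne_zero _ hz2)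
      have h4 : MvPolynomial.map (algebraMap ℚ ℂ) H * (X 0 * X 2) = 0 := by
        refine MvPolynomial.funext fun z => ?_
        rw [map_mul (eval z), map_zero, map_mul (eval z) (X 0), eval_X, eval_X]
        by_cases hz0 : z 0 = 0
        · rw [hz0, zero_mul, mul_zero]
        by_cases hz2 : z 2 = 0
        · rw [hz2, mul_zero, mul_zero]
        rw [h1 z hz0 hz2, zero_mul]
      exact (mul_eq_zero.1 h4).resolve_right (mul_ne_zero (X_ne_zero 0) (X_ne_zero 2))
    exact MvPolynomial.map_injective _ (algebraMap ℚ ℂ).injective (by rw [hCH, map_zero])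
  -- the roots
  have hroots : ∀ A ⊆ m.divisors, (fA A).map (Int.castRingHom ℚ) ∈ P.roots := by
    intro A hA
    rw [Polynomial.mem_roots hP0, Polynomial.IsRoot.def]
    set φ : Polynomial ℚ := (fA A).map (Int.castRingHom ℚ) with hφ
    set χ : Polynomial ℚ := (fA (m.divisors \ A)).map (Int.castRingHom ℚ) with hχ
    have hφχ : φ * χ = 1 - Polynomial.X ^ m := by
      rw [hφ, hχ, ← Polynomial.map_mul, fA_mul hm hA]
      simp
    have h2 := hcomp (Polynomial.evalRingHom φ)
      ((Polynomial.C : Polynomial ℚ →+* Polynomial (Polynomial ℚ)).comp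
            (Polynomial.C : ℚ →+* Polynomial ℚ)) v (fun i => φ * (![φ, χ, 1] : Fin 3 → _) i) (by
          intro i
          fin_cases i
          · simp [hv, sq]
          · simp [hv, hφχ]
          · simp [hv])
    rw [← hPe] at h2
    have h3 : (Polynomial.evalRingHom φ).comp
      ((Polynomial.C : Polynomial ℚ →+* Polynomial (Polynomial ℚ)).comp
            (Polynomial.C : ℚ →+* Polynomial ℚ)) = (Polynomial.C : ℚ →+* Polynomial ℚ) := by
      ext; simp
    rw [h3, ← MvPolynomial.eval_map, eval_scale _ (hHhom.map _), MvPolynomial.eval_map,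
      hvan A hA, mul_zero] at h2
    exact h2
  have hsub : (m.divisors.powerset.image fun A => (fA A).map (Int.castRingHom ℚ)) ⊆
      P.roots.toFinset := by
    intro f hf
    rw [Finset.mem_image] at hf
    obtain ⟨A, hA, rfl⟩ := hf
    rw [Multiset.mem_toFinset]
    exact hroots A (Finset.mem_powerset.1 hA)
  have hcard : (m.divisors.powerset.image fun A => (fA A).map (Int.castRingHom ℚ)).card =
      2 ^ m.divisors.card := by
    rw [Finset.card_image_of_injOn, Finset.card_powerset]
    intro A hA B hB hAB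
    rw [Finset.mem_coe, Finset.mem_powerset] at hA hB
    exact fA_injOn hA hB (Polynomial.map_injective _ (RingHom.injective_int _) hAB)
  calc 2 ^ m.divisors.card = _ := hcard.symm
    _ ≤ P.roots.toFinset.card := Finset.card_le_card hsub
    _ ≤ Multiset.card P.roots := Multiset.toFinset_card_le _
    _ ≤ P.natDegree := Polynomial.card_roots' P
    _ ≤ (δ + d) * 2 := hPdeg
    _ = 2 * (δ + d) := by ring

end Pool.Agent.Results.MP_17a322_nt.ConicAndTwoLines
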