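import Mathlib
import Pool.Agent.W231.V.Alg
import Pool.Agent.Results.MP_17a322_nt.ErrorTermGrowsWithS

set_option autoImplicit false

/-!
# The exceptional set in Vojta's main conjecture depends on `ε`, for rational points

`X` is the blow-up of the projective plane over `ℚ` in the point `(1 : 1 : 1)`, with the exceptional
curve `E`, and `D` is the sum of the three coordinate lines.
-/

namespace Pool.Agent.Results.MP_17a322_nt.ExceptionalSetDependsOnEpsilon

open MvPolynomial

/-- `x` is a primitive integer vector; every rational point of the plane is represented by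
exactly two of them, `x` and `-x` -/
def IsPrimitive (x : Fin 3 → ℤ) : Prop := Finset.univ.gcd x = 1

/-- `max |x_i|`, the multiplicative height of the point given by a primitive `x` -/
def height (x : Fin 3 → ℤ) : ℕ := Finset.univ.sup (fun i => (x i).natAbs)

/-- The proximity function `m_{S ∪ {∞}, D}(x)` of the sum `D` of the coordinate lines: the sum of the
local heights `log (H(x) / |x_i|)` at the infinite place and `-log |x_i|_p = v_p(x_i) log p` at the
primes `p ∈ S`. -/
noncomputable def proximity (S : Finset ℕ) (x : Fin 3 → ℤ) : ℝ :=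
  ∑ i, (Real.log ((height x : ℝ) / |(x i : ℝ)|) +
    ∑ p ∈ S, (padicValInt p (x i) : ℝ) * Real.log p)

/-- The height `h_E(x)` relative to the exceptional curve `E`: the sum over all places of the local
heights, at a prime `p` minus the logarithm of `max (|x_0 - x_2|_p, |x_1 - x_2|_p)` and at the
infinite place minus the logarithm of `max (|x_0 - x_2|, |x_1 - x_2|) / H(x)`. -/
noncomputable def heightE (x : Fin 3 → ℤ) : ℝ :=
  Real.log (Int.gcd (x 0 - x 2) (x 1 - x 2)) +
    Real.log ((height x : ℝ) / max |((x 0 - x 2 : ℤ) : ℝ)| |((x 1 - x 2 : ℤ) : ℝ)|)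

/-- `h_K(x)` for the canonical class `K = -3 L + E` of `X`, `L` the class of a line -/
noncomputable def heightK (x : Fin 3 → ℤ) : ℝ := -3 * Real.log (height x) + heightE x

/-- `h_A(x)` for the ample class `A = 2 L - E` -/
noncomputable def heightA (x : Fin 3 → ℤ) : ℝ := 2 * Real.log (height x) - heightE x

/-- the pairs of coprime numbers `(a, b)` with `0 ≤ a ≤ B` and `1 ≤ b ≤ B` -/
def pairs (B : ℕ) : Finset (ℕ × ℕ) :=
  ((Finset.range (B + 1)) ×ˢ (Finset.Icc 1 B)).filter (fun p => Nat.Coprime p.1 p.2)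

/-- the points of the curve with the equation `x_0 ^ b = x_1 ^ a x_2 ^ (b - a)` or
`x_0 ^ b x_2 ^ (a - b) = x_1 ^ a` -/
def pt (a b t : ℕ) : Fin 3 → ℤ := ![(t : ℤ) ^ a, (t : ℤ) ^ b, 1]

theorem pt_primitive (a b t : ℕ) : IsPrimitive (pt a b t) := by
  unfold IsPrimitive
  have h : Finset.univ.gcd (pt a b t) ∣ pt a b t 2 := Finset.gcd_dvd (Finset.mem_univ _)
  have h2 : pt a b t 2 = 1 := by simp [pt]
  rw [h2] at h
  have h3 := Finset.normalize_gcd (s := (Finset.univ : Finset (Fin 3))) (f := pt a b t)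
  rw [← h3]
  exact normalize_eq_one.2 (isUnit_of_dvd_one h)

theorem pt_height (a b t : ℕ) (ht : 2 ≤ t) : height (pt a b t) = t ^ max a b := by
  unfold height
  apply le_antisymm
  · refine Finset.sup_le fun i _ => ?_
    have h1 : 1 ≤ t := by omega
    fin_cases i
    · simpa [pt, Int.natAbs_pow] using Nat.pow_le_pow_right h1 (le_max_left a b)
    · simpa [pt, Int.natAbs_pow] using Nat.pow_le_pow_right h1 (le_max_right a b)
    · simpa [pt] using Nat.one_le_pow _ _ h1
  · rcases le_total a b with h | h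
    · rw [max_eq_right h]
      have := Finset.le_sup (f := fun i => (pt a b t i).natAbs) (Finset.mem_univ (1 : Fin 3))
      simpa [pt, Int.natAbs_pow] using this
    · rw [max_eq_left h]
      have := Finset.le_sup (f := fun i => (pt a b t i).natAbs) (Finset.mem_univ (0 : Fin 3))
      simpa [pt, Int.natAbs_pow] using this

theorem log_pow_prime {S : Finset ℕ} (hS : ∀ p ∈ S, p.Prime) {q : ℕ} (hq : q ∈ S) (n a : ℕ) :
    ∑ p ∈ S, (padicValInt p (((q ^ n : ℕ) : ℤ) ^ a) : ℝ) * Real.log p =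
      Real.log (((q : ℝ) ^ n) ^ a) := by
  have hqp := hS q hq
  rw [Finset.sum_eq_single q]
  · have : Fact q.Prime := ⟨hqp⟩
    have h1 : padicValInt q (((q ^ n : ℕ) : ℤ) ^ a) = n * a := by
      have h2 : (((q ^ n : ℕ) : ℤ) ^ a) = ((q ^ (n * a) : ℕ) : ℤ) := by
        push_cast; rw [pow_mul]
      rw [h2, padicValInt.of_nat, padicValNat.prime_pow]
    rw [h1, ← pow_mul, Real.log_pow]
  · intro p hp hpq
    have hpp := hS p hp
    have h1 : padicValInt p (((q ^ n : ℕ) : ℤ) ^ a) = 0 := by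
      have h2 : (((q ^ n : ℕ) : ℤ) ^ a) = ((q ^ (n * a) : ℕ) : ℤ) := by
        push_cast; rw [pow_mul]
      rw [h2, padicValInt.of_nat]
      apply padicValNat.eq_zero_of_not_dvd
      intro hd
      exact hpq ((Nat.prime_dvd_prime_iff_eq hpp hqp).1 (hpp.dvd_of_dvd_pow hd))
    rw [h1]; simp
  · intro h; exact absurd hq h

theorem pt_proximity {S : Finset ℕ} (hS : ∀ p ∈ S, p.Prime) {q : ℕ} (hq : q ∈ S) (n a b : ℕ)
    (hn : 1 ≤ n) : proximity S (pt a b (q ^ n)) = 3 * Real.log (height (pt a b (q ^ n))) := by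
  have hqp := hS q hq
  have hq0 : (0 : ℝ) < q := by exact_mod_cast hqp.pos
  have ht : 2 ≤ q ^ n := hqp.two_le.trans (Nat.le_self_pow (by omega) q)
  have hH : (0 : ℝ) < height (pt a b (q ^ n)) := by
    rw [pt_height a b _ ht]
    positivity
  have key : ∀ c : ℕ, Real.log ((height (pt a b (q ^ n)) : ℝ) / |((((q ^ n : ℕ) : ℤ) ^ c : ℤ) : ℝ)|) +
      ∑ p ∈ S, (padicValInt p (((q ^ n : ℕ) : ℤ) ^ c) : ℝ) * Real.log p =
      Real.log (height (pt a b (q ^ n))) := by
    intro c
    rw [log_pow_prime hS hq]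
    push_cast
    rw [abs_of_pos (by positivity), Real.log_div hH.ne' (by positivity)]
    ring
  unfold proximity
  rw [Fin.sum_univ_three]
  have h0 : pt a b (q ^ n) 0 = (((q ^ n : ℕ) : ℤ) ^ a) := by simp [pt]
  have h1 : pt a b (q ^ n) 1 = (((q ^ n : ℕ) : ℤ) ^ b) := by simp [pt]
  have h2 : pt a b (q ^ n) 2 = (((q ^ n : ℕ) : ℤ) ^ 0) := by simp [pt]
  rw [h0, h1, h2, key, key, key]
  ring

theorem pt_heightE {a b t : ℕ} (hab : Nat.Coprime a b) (hb : 1 ≤ b) (ht : 2 ≤ t) :
    Real.log ((t : ℝ) - 1) ≤ heightE (pt a b t) := by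
  unfold heightE
  have h0 : pt a b t 0 = (t : ℤ) ^ a := by simp [pt]
  have h1 : pt a b t 1 = (t : ℤ) ^ b := by simp [pt]
  have h2 : pt a b t 2 = 1 := by simp [pt]
  rw [h0, h1, h2, pt_height a b t ht]
  have htR : (2 : ℝ) ≤ t := by exact_mod_cast ht
  have hgcd : Int.gcd ((t : ℤ) ^ a - 1) ((t : ℤ) ^ b - 1) = t - 1 := by
    have e : ∀ c : ℕ, ((t : ℤ) ^ c - 1) = ((t ^ c - 1 : ℕ) : ℤ) := by
      intro c
      have : 1 ≤ t ^ c := Nat.one_le_pow _ _ (by omega)
      rw [Nat.cast_sub this]; push_cast; rfl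
    rw [e, e, Int.gcd_natCast_natCast, Nat.pow_sub_one_gcd_pow_sub_one, hab.gcd_eq_one, pow_one]
  rw [hgcd]
  have h3 : (((t - 1 : ℕ)) : ℝ) = (t : ℝ) - 1 := by
    rw [Nat.cast_sub (by omega)]; norm_num
  rw [h3]
  have hmax : (0 : ℝ) < max |(((t : ℤ) ^ a - 1 : ℤ) : ℝ)| |(((t : ℤ) ^ b - 1 : ℤ) : ℝ)| := by
    refine lt_max_of_lt_right (abs_pos.2 ?_)
    push_cast
    have : (1 : ℝ) < (t : ℝ) ^ b := one_lt_pow₀ (by linarith) (by omega)
    linarith
  have hle : max |(((t : ℤ) ^ a - 1 : ℤ) : ℝ)| |(((t : ℤ) ^ b - 1 : ℤ) : ℝ)| ≤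
      ((t ^ max a b : ℕ) : ℝ) := by
    have key : ∀ c : ℕ, c ≤ max a b → |(((t : ℤ) ^ c - 1 : ℤ) : ℝ)| ≤ ((t ^ max a b : ℕ) : ℝ) := by
      intro c hc
      push_cast
      have h4 : (1 : ℝ) ≤ (t : ℝ) ^ c := one_le_pow₀ (by linarith)
      rw [abs_of_nonneg (by linarith)]
      have h5 : (t : ℝ) ^ c ≤ (t : ℝ) ^ max a b := pow_le_pow_right₀ (by linarith) hc
      linarith
    exact max_le (key a (le_max_left _ _)) (key b (le_max_right _ _))
  have h6 : 0 ≤ Real.log (((t ^ max a b : ℕ) : ℝ) /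
      max |(((t : ℤ) ^ a - 1 : ℤ) : ℝ)| |(((t : ℤ) ^ b - 1 : ℤ) : ℝ)|) := by
    apply Real.log_nonneg
    rw [le_div_iff₀ hmax, one_mul]
    exact hle
  linarith

/-- a nonzero polynomial does not vanish at `q ^ n`, `n` large -/
theorem eventually_ne {q : ℕ} (hq : 2 ≤ q) (P : Polynomial ℚ) (hP : P ≠ 0) :
    ∀ᶠ m : ℕ in Filter.atTop, P.eval ((q ^ m : ℕ) : ℚ) ≠ 0 := by
  rw [← Nat.cofinite_eq_atTop, Filter.eventually_cofinite]
  have h1 : {m : ℕ | ¬ P.eval ((q ^ m : ℕ) : ℚ) ≠ 0} =
      (fun m : ℕ => ((q ^ m : ℕ) : ℚ)) ⁻¹' {x | P.IsRoot x} := by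
    ext m
    simp [Polynomial.IsRoot]
  rw [h1]
  refine Set.Finite.preimage (fun m _ m' _ h => ?_) (Polynomial.finite_setOfPred_isRoot hP)
  have h2 : q ^ m = q ^ m' := by exact_mod_cast h
  exact Nat.pow_right_injective hq h2

/-- Let `X` be the blow-up of the projective plane over `ℚ` in `(1 : 1 : 1)`, `E` the exceptional
curve, `D` the sum of the coordinate lines, `A = 2 L - E`, `S` a nonempty set of primes and `ε > 0`.
If Vojta's inequality `m_{S ∪ {∞}, D}(x) + h_K(x) ≤ ε h_A(x) + C` holds for all rational points `x` of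
the plane off `D` and `(1 : 1 : 1)` and off the curve `G = 0` of degree `δ`, then
`δ ≥ ∑ b`, the sum over all coprime `0 ≤ a ≤ B`, `1 ≤ b ≤ B`, for all `B` with `(2 B - 1) ε < 1`. -/
theorem result (S : Finset ℕ) (hS : ∀ p ∈ S, p.Prime) (hSne : S.Nonempty) (ε C : ℝ) (hε : 0 < ε)
    (δ : ℕ) (G : MvPolynomial (Fin 3) ℚ) (hG : G.IsHomogeneous δ) (hG0 : G ≠ 0)
    (hV : ∀ x : Fin 3 → ℤ, IsPrimitive x → (∀ i, x i ≠ 0) → (x 0 ≠ x 2 ∨ x 1 ≠ x 2) →
      eval (fun i => (x i : ℚ)) G ≠ 0 → proximity S x + heightK x ≤ ε * heightA x + C)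
    (B : ℕ) (hB : (2 * (B : ℝ) - 1) * ε < 1) :
    ∑ p ∈ pairs B, p.2 ≤ δ := by
  classical
  obtain ⟨q, hqS⟩ := hSne
  have hqp := hS q hqS
  -- the dehomogenised form
  set f : Polynomial (Polynomial ℚ) :=
    MvPolynomial.eval₂ ((Polynomial.C : Polynomial ℚ →+* _).comp (Polynomial.C : ℚ →+* Polynomial ℚ))
      (![Polynomial.X, Polynomial.C Polynomial.X, 1] : Fin 3 → Polynomial (Polynomial ℚ)) G with hf
  have hf0 : f ≠ 0 := by
    intro h0
    apply hG0
    -- `G` vanishes at all points with nonzero last coordinate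
    have h1 : ∀ z : Fin 3 → ℚ, z 2 ≠ 0 → eval z G = 0 := by
      intro z hz
      have h2 : (f.eval (Polynomial.C (z 0 / z 2))).eval (z 1 / z 2) =
          eval (fun j => (z 2)⁻¹ * z j) G := by
        have h3 : (f.eval (Polynomial.C (z 0 / z 2))).eval (z 1 / z 2) =
            ((Polynomial.evalRingHom (z 1 / z 2)).comp
              (Polynomial.evalRingHom (Polynomial.C (z 0 / z 2)))) f := rfl
        rw [h3, hf, MvPolynomial.hom_eval₂]
        have h4 : ((Polynomial.evalRingHom (z 1 / z 2)).comp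
            (Polynomial.evalRingHom (Polynomial.C (z 0 / z 2)))).comp
            ((Polynomial.C : Polynomial ℚ →+* Polynomial (Polynomial ℚ)).comp
              (Polynomial.C : ℚ →+* Polynomial ℚ)) = RingHom.id ℚ := by
          ext c
          simp
        rw [h4, MvPolynomial.eval]
        congr 1
        funext j
        fin_cases j
        · simp [div_eq_inv_mul]
        · simp [div_eq_inv_mul]
        · simp [inv_mul_cancel₀ hz]
      rw [h0, Polynomial.eval_zero, Polynomial.eval_zero] at h2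
      have h5 := Pool.Agent.Results.MP_17a322_nt.ErrorTermGrowsWithS.eval_scale G hG (z 2)⁻¹ z
      rw [← h2] at h5
      exact (mul_eq_zero.1 h5.symm).resolve_left (pow_ne_zero _ (inv_ne_zero hz))
    have h6 : G * X 2 = 0 := by
      refine MvPolynomial.funext fun z => ?_
      rw [map_mul, map_zero, eval_X]
      by_cases hz : z 2 = 0
      · rw [hz, mul_zero]
      · rw [h1 z hz, zero_mul]
    exact (mul_eq_zero.1 h6).resolve_right (X_ne_zero 2)
  have hdeg : f.natDegree ≤ δ := by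
    have h1 := MvPolynomial.aeval_natDegree_le (m := δ) (n := 1)
      (MvPolynomial.map (Polynomial.C : ℚ →+* Polynomial ℚ) G)
      ((hG.map _).totalDegree_le)
      (![Polynomial.X, Polynomial.C Polynomial.X, 1] : Fin 3 → Polynomial (Polynomial ℚ))
      (fun j => by
        fin_cases j
        · simp
        · simp
        · simp)
    rw [mul_one, MvPolynomial.aeval_def, MvPolynomial.eval₂_map] at h1
    exact h1
  refine le_trans ?_ hdeg
  refine Pool.Agent.W231.V.degree_bound (pairs B) (fun p => p.1) (fun p => p.2)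
    (fun _ => (1 : ℚ)) (fun _ => (1 : ℚ)) (fun _ _ => one_ne_zero) (fun _ _ => one_ne_zero)
    ?_ ?_ ?_ f hf0 ?_
  · intro p hp
    simp only [pairs, Finset.mem_filter, Finset.mem_product, Finset.mem_range, Finset.mem_Icc] at hp
    omega
  · intro p hp
    simp only [pairs, Finset.mem_filter] at hp
    exact hp.2
  · rintro ⟨a, b⟩ hp ⟨a', b'⟩ hq hne heq
    simp only [pairs, Finset.mem_filter, Finset.mem_product, Finset.mem_range,
      Finset.mem_Icc] at hp hq
    simp only at heq
    apply hne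
    have h3 : b = b' := by
      apply Nat.dvd_antisymm
      · refine Nat.Coprime.dvd_of_dvd_mul_left hp.2.symm ?_
        rw [heq]
        exact dvd_mul_right _ _
      · refine Nat.Coprime.dvd_of_dvd_mul_left hq.2.symm ?_
        rw [mul_comm a' b, ← heq]
        exact dvd_mul_left _ _
    subst h3
    have h4 : a = a' := by
      rw [mul_comm a b] at heq
      exact Nat.eq_of_mul_eq_mul_left (by omega) heq
    rw [h4]
  · rintro ⟨a, b⟩ hp
    simp only [pairs, Finset.mem_filter, Finset.mem_product, Finset.mem_range,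
      Finset.mem_Icc] at hp
    obtain ⟨⟨haB, hb1, hbB⟩, hcop⟩ := hp
    simp only
    by_contra hne
    -- the restriction of `G` to the curve
    have hcrv : ∀ t : ℚ, (Pool.Agent.W231.V.crv 1 1 a b f).eval t = eval ![t ^ a, t ^ b, 1] G := by
      intro t
      have h3 : (Pool.Agent.W231.V.crv 1 1 a b f).eval t =
          ((Polynomial.evalRingHom t).comp (Pool.Agent.W231.V.crv 1 1 a b)) f := rfl
      rw [h3, hf, MvPolynomial.hom_eval₂]
      have h4 : ((Polynomial.evalRingHom t).comp (Pool.Agent.W231.V.crv (1 : ℚ) 1 a b)).comp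
          ((Polynomial.C : Polynomial ℚ →+* Polynomial (Polynomial ℚ)).comp
            (Polynomial.C : ℚ →+* Polynomial ℚ)) = RingHom.id ℚ := by
        ext c
        simp
      rw [h4, MvPolynomial.eval]
      congr 1
      funext j
      fin_cases j
      · simp [Pool.Agent.W231.V.crv_X]
      · simp [Pool.Agent.W231.V.crv_C, Pool.Agent.W231.V.sub_X]
      · simp
    have h1 := eventually_ne hqp.two_le _ hne
    -- large `t` contradict the inequality
    have hk1 : 1 ≤ max a b := le_max_of_le_right hb1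
    have hkB : (max a b : ℕ) ≤ B := max_le (by omega) hbB
    have hkey : ∀ n : ℕ, 1 ≤ n → (Pool.Agent.W231.V.crv 1 1 a b f).eval ((q ^ n : ℕ) : ℚ) ≠ 0 →
        (1 + ε) * Real.log (((q ^ n : ℕ) : ℝ) - 1) ≤
          2 * ε * (max a b : ℕ) * Real.log ((q ^ n : ℕ) : ℝ) + C := by
      intro n hn hGn
      have ht : 2 ≤ q ^ n := hqp.two_le.trans (Nat.le_self_pow (by omega) q)
      set x := pt a b (q ^ n) with hx
      have hx0 : x 0 = ((q ^ n : ℕ) : ℤ) ^ a := by simp [hx, pt]
      have hx1 : x 1 = ((q ^ n : ℕ) : ℤ) ^ b := by simp [hx, pt]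
      have hx2 : x 2 = 1 := by simp [hx, pt]
      have h5 := hV x (pt_primitive _ _ _) (by
        intro i
        have : ((q ^ n : ℕ) : ℤ) ≠ 0 := by exact_mod_cast (by omega : q ^ n ≠ 0)
        fin_cases i
        · exact hx0 ▸ pow_ne_zero _ this
        · exact hx1 ▸ pow_ne_zero _ this
        · exact hx2 ▸ one_ne_zero) (Or.inr (by
          rw [hx1, hx2]
          have h6 : (1 : ℤ) < ((q ^ n : ℕ) : ℤ) ^ b := one_lt_pow₀ (by exact_mod_cast ht) (by omega)
          exact h6.ne')) (by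
          rw [hcrv] at hGn
          have h7 : (fun i => (x i : ℚ)) = ![((q ^ n : ℕ) : ℚ) ^ a, ((q ^ n : ℕ) : ℚ) ^ b, 1] := by
            funext i
            fin_cases i
            · simp [hx0]
            · simp [hx1]
            · simp [hx2]
          rw [h7]
          exact hGn)
      unfold heightK heightA at h5
      rw [pt_proximity hS hqS n a b hn] at h5
      have h8 := pt_heightE hcop hb1 ht
      rw [← hx] at h8 h5
      have h9 : Real.log (height x) = (max a b : ℕ) * Real.log ((q ^ n : ℕ) : ℝ) := by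
        rw [hx, pt_height a b _ ht, Nat.cast_pow, Real.log_pow]
      rw [h9] at h5
      nlinarith
    have hlim : Filter.Tendsto (fun n : ℕ => ((q ^ n : ℕ) : ℝ)) Filter.atTop Filter.atTop :=
      tendsto_natCast_atTop_atTop.comp (tendsto_pow_atTop_atTop_of_one_lt hqp.one_lt)
    have hk : 0 < 1 + ε - 2 * ε * (max a b : ℕ) := by
      have : ((max a b : ℕ) : ℝ) ≤ B := by exact_mod_cast hkB
      nlinarith
    have hlog : Filter.Tendsto (fun n : ℕ => Real.log ((q ^ n : ℕ) : ℝ)) Filter.atTop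
        Filter.atTop := Real.tendsto_log_atTop.comp hlim
    have h10 := hlog.eventually_gt_atTop
      ((C + (1 + ε) * Real.log 2) / (1 + ε - 2 * ε * (max a b : ℕ)))
    obtain ⟨n, hn1, hn2, hn3⟩ := (h1.and (h10.and (Filter.eventually_ge_atTop 1))).exists
    have ht : 2 ≤ q ^ n := hqp.two_le.trans (Nat.le_self_pow (by omega) q)
    have htR : (2 : ℝ) ≤ ((q ^ n : ℕ) : ℝ) := by exact_mod_cast ht
    have h11 := hkey n hn3 hn1
    rw [div_lt_iff₀ hk] at hn2
    have h12 : Real.log ((q ^ n : ℕ) : ℝ) - Real.log 2 ≤ Real.log (((q ^ n : ℕ) : ℝ) - 1) := by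
      rw [← Real.log_div (by linarith) two_ne_zero]
      refine Real.log_le_log (by linarith) ?_
      rw [div_le_iff₀ two_pos]
      linarith
    nlinarith

end Pool.Agent.Results.MP_17a322_nt.ExceptionalSetDependsOnEpsilon
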