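import Mathlib
import Pool.Agent.X323.ES3

/-!
# Vojta's conjecture without divisor: the exceptional set must depend on `ε`

`X` is the surface of bidegree `(3, 3)` in `ℙ¹ × ℙ²` over `ℚ` with the equation (`t = t_0 / t_1`)

`((t + 1)³ - 1) v_0³ + (t³ - (t + 1)³) v_1³ + (1 - t³) v_2³ = 0`,

i.e. `det (1, 1, 1; t³, 1, (t + 1)³; v_0³, v_1³, v_2³) = 0`. The product of the three coefficients has
nine different zeros on `ℙ¹`, so `X` is smooth; it is an elliptic surface over `ℙ¹`, and by
adjunction `K_X = O(1, 0)`, so `h_{K_X}(t, v) = h(t)`. Let `D = 0` and `A = O(1, 1)`, so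
`h_A(t, v) = h(t) + h(v)`. Then Vojta's inequality is `h(t) ≤ ε (h(t) + h(v)) + C`.

The surface contains the sections `v = (1, 1, 1)` and `v = (t, 1, t + 1)`. The chord and tangent
process, halving the indices, gives for all integers `k, l` a section `v = σ_{k,l}(t)` of degree
`O(1 + k² + l²)`, which passes through the points `(1 : 1 : 1 - 3k + l)` above `t = 1` and
`(1 - 3k - l : 1 : 1)` above `t = 0`; so they are all different. On a section of degree `n` the
inequality fails if `ε (n + 1) < 1`.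
-/

set_option autoImplicit false

namespace Pool.Agent.Results.MP_17a322_nt.WithoutDivisor

open Polynomial

/-- the equation of the surface `X` (for `t ≠ ∞`) -/
def surface {R : Type} [CommRing R] (t : R) (v : Fin 3 → R) : R :=
  ((t + 1) ^ 3 - 1) * v 0 ^ 3 + (t ^ 3 - (t + 1) ^ 3) * v 1 ^ 3 + (1 - t ^ 3) * v 2 ^ 3

/-- `v` is a primitive integer vector; every rational point of the projective plane is represented
by exactly two of them, `v` and `-v` -/
def IsPrimitive (v : Fin 3 → ℤ) : Prop := Finset.univ.gcd v = 1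

/-- the logarithmic height of the point of the projective plane given by a primitive `v` -/
noncomputable def height (v : Fin 3 → ℤ) : ℝ :=
  Real.log ((Finset.univ.sup fun i => (v i).natAbs : ℕ) : ℝ)

/-- the logarithmic height of a rational number -/
noncomputable def heightRat (t : ℚ) : ℝ := Real.log ((max t.num.natAbs t.den : ℕ) : ℝ)

/-- `h_K` for the canonical divisor of `X` -/
noncomputable def heightK (t : ℚ) : ℝ := heightRat t

/-- `h_A` for the ample divisor `A` of type `(1, 1)` -/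
noncomputable def heightA (t : ℚ) (v : Fin 3 → ℤ) : ℝ := heightRat t + height v

/-- the value of `G` at `(t, v)`; `G` is a polynomial in `v` whose coefficients are polynomials in
`t` with integer coefficients -/
noncomputable def value {F : Type} [Field F] (G : MvPolynomial (Fin 3) ℤ[X]) (t : F)
    (v : Fin 3 → F) : F :=
  MvPolynomial.eval₂ (eval₂RingHom (Int.castRingHom F) t) v G

/-- Vojta's inequality (for `D = 0`) holds with the constants `ε` and `C` at all rational points of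
`X`, `t ≠ ∞`, outside of the zero set of `G` -/
def VojtaOff (G : MvPolynomial (Fin 3) ℤ[X]) (ε C : ℝ) : Prop :=
  ∀ (t : ℚ) (v : Fin 3 → ℤ), IsPrimitive v → surface t (fun i => (v i : ℚ)) = 0 →
    value G t (fun i => (v i : ℚ)) ≠ 0 → heightK t ≤ ε * heightA t v + C

/-- `G` does not vanish identically on `X` -/
def NotOn (G : MvPolynomial (Fin 3) ℤ[X]) : Prop :=
  ∃ (t : ℂ) (v : Fin 3 → ℂ), surface t v = 0 ∧ v 2 ≠ 0 ∧ value G t v ≠ 0

/-- `v = σ(t)` is a curve in `X` (a section of `X` over `ℙ¹`) -/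
def IsSection (σ : Fin 3 → ℤ[X]) : Prop := σ ≠ 0 ∧ surface X σ = 0

/-- the sections `v = σ(t)` and `v = τ(t)` are different -/
def Different (σ τ : Fin 3 → ℤ[X]) : Prop := ∃ i j, σ i * τ j ≠ σ j * τ i

lemma surface_eq (x y z : ℤ[X]) : surface X ![x, y, z] =
    Pool.Agent.X323.ES.pa * x ^ 3 + Pool.Agent.X323.ES.pb * y ^ 3 +
      Pool.Agent.X323.ES.pc * z ^ 3 := by
  unfold surface Pool.Agent.X323.ES.pa Pool.Agent.X323.ES.pb Pool.Agent.X323.ES.pc
  simp

/-- Vojta's inequality at the integers `t` -/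
lemma VojtaOff.int {G : MvPolynomial (Fin 3) ℤ[X]} {ε C : ℝ} (h : VojtaOff G ε C)
    (p : ℕ) (v : Fin 3 → ℤ) (hp : 1 ≤ p) (hv : Finset.univ.gcd v = 1)
    (hs : Pool.Agent.X323.ES.pa.eval (p : ℤ) * v 0 ^ 3 +
      Pool.Agent.X323.ES.pb.eval (p : ℤ) * v 1 ^ 3 +
      Pool.Agent.X323.ES.pc.eval (p : ℤ) * v 2 ^ 3 = 0)
    (hG : MvPolynomial.eval₂ (evalRingHom (p : ℤ)) v G ≠ 0) :
    Real.log p ≤ ε * (Real.log p + Real.log (Pool.Agent.X323.ES.ht v)) + C := by
  have h1 := h (p : ℚ) v hv ?_ ?_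
  · have h2 : heightRat (p : ℚ) = Real.log p := by
      unfold heightRat
      rw [Rat.num_natCast, Rat.den_natCast, Int.natAbs_natCast, max_eq_left hp]
    unfold heightK heightA at h1
    rw [h2] at h1
    exact h1
  · have h2 : surface (p : ℚ) (fun i => (v i : ℚ)) = ((surface (p : ℤ) v : ℤ) : ℚ) := by
      unfold surface
      push_cast
      ring
    rw [h2]
    have h3 : surface (p : ℤ) v = 0 := by
      rw [← hs]
      unfold surface Pool.Agent.X323.ES.pa Pool.Agent.X323.ES.pb Pool.Agent.X323.ES.pc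
      simp
    rw [h3, Int.cast_zero]
  · unfold value
    have h2 : (Int.castRingHom ℚ) (MvPolynomial.eval₂ (evalRingHom (p : ℤ)) v G) =
        MvPolynomial.eval₂ ((Int.castRingHom ℚ).comp (evalRingHom (p : ℤ)))
          ((Int.castRingHom ℚ) ∘ v) G := MvPolynomial.eval₂_comp_left _ _ _ _
    have h3 : (Int.castRingHom ℚ).comp (evalRingHom (p : ℤ)) =
        eval₂RingHom (Int.castRingHom ℚ) (p : ℚ) := by
      refine Polynomial.ringHom_ext (fun a => ?_) ?_
      · simp
      · simp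
    rw [h3] at h2
    have h4 : ((Int.castRingHom ℚ) ∘ v) = fun i => (v i : ℚ) := rfl
    rw [h4] at h2
    rw [← h2]
    simpa using hG

/-- **Vojta's conjecture for the surface `X` and `D = 0`.** There is a constant `c > 0` such that for
every `ε > 0` there is a set `s` of at least `c / ε - 1` different sections of `X` with the following
property. Let `G` be homogeneous of degree `g` in `v`, and suppose that Vojta's inequality
`h_K ≤ ε h_A + C` holds with some `C` at all rational points of `X`, `t ≠ ∞`, outside of the zero set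
of `G`. Then all sections in `s` are contained in the zero set of `G`, and if `G` does not vanish
identically on `X`, then `g ≥ c / ε - 1`. -/
theorem result : ∃ c : ℝ, 0 < c ∧ ∀ ε : ℝ, 0 < ε → ∃ s : Finset (Fin 3 → ℤ[X]),
    c / ε - 1 ≤ s.card ∧ (∀ σ ∈ s, IsSection σ) ∧ (∀ σ ∈ s, ∀ τ ∈ s, σ ≠ τ → Different σ τ) ∧
    ∀ (G : MvPolynomial (Fin 3) ℤ[X]) (g : ℕ) (C : ℝ), G.IsHomogeneous g → VojtaOff G ε C →
      (∀ σ ∈ s, MvPolynomial.eval σ G = 0) ∧ (NotOn G → c / ε - 1 ≤ g) := by
  classical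
  obtain ⟨D, hD0, hD⟩ := Pool.Agent.X323.ES.growth
  have hDR : (0 : ℝ) < D := by exact_mod_cast hD0
  refine ⟨1 / (3 * D), by positivity, fun ε hε => ?_⟩
  by_cases hεD : 1 ≤ ε * D
  · have hb : 1 / (3 * (D : ℝ)) / ε - 1 ≤ 0 := by
      rw [div_div, sub_nonpos, div_le_one (by positivity)]
      nlinarith
    refine ⟨∅, by simpa using hb, by simp, by simp, fun G g C _ _ => ⟨by simp, fun _ => ?_⟩⟩
    exact hb.trans (Nat.cast_nonneg g)
  rw [not_le] at hεD
  -- the largest admissible `j`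
  obtain ⟨j, hj1, hj2⟩ : ∃ j : ℕ, ε * (D * 4 ^ j) < 1 ∧ 1 ≤ ε * (D * 4 ^ (j + 1)) := by
    have hex : ∃ j : ℕ, 1 ≤ ε * (D * 4 ^ j) := by
      obtain ⟨j, hj⟩ := pow_unbounded_of_one_lt (1 / (ε * D)) (by norm_num : (1 : ℝ) < 4)
      refine ⟨j, ?_⟩
      rw [div_lt_iff₀ (by positivity)] at hj
      nlinarith
    have hm := Nat.find_spec hex
    have hm' := fun j => @Nat.find_min _ _ hex j
    have hpos : Nat.find hex ≠ 0 := by
      intro h0
      rw [h0] at hm
      simp only [pow_zero, mul_one] at hm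
      linarith
    obtain ⟨j, hj⟩ := Nat.exists_eq_succ_of_ne_zero hpos
    refine ⟨j, ?_, ?_⟩
    · have := hm' j (by omega)
      linarith
    · rw [hj] at hm
      exact hm
  have hDj : 1 ≤ D * 4 ^ j := Nat.one_le_iff_ne_zero.2 (by positivity)
  have hn : ε * (((D * 4 ^ j - 1 : ℕ) : ℝ) + 1) < 1 := by
    rw [Nat.cast_sub hDj]
    push_cast
    rw [sub_add_cancel]
    exact hj1
  -- the index set
  set I : Finset (ℤ × ℤ) := Finset.Icc (-(1 + 2 ^ j)) (1 + 2 ^ j) ×ˢ
    Finset.Icc (-(1 + 2 ^ j)) (1 + 2 ^ j) with hI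
  have hIcard : I.card = (2 * 2 ^ j + 3) ^ 2 := by
    rw [hI, Finset.card_product, Int.card_Icc, sq]
    have : ((1 + 2 ^ j : ℤ) + 1 - -(1 + 2 ^ j)).toNat = 2 * 2 ^ j + 3 := by
      have h1 : ((1 + 2 ^ j : ℤ) + 1 - -(1 + 2 ^ j)) = ((2 * 2 ^ j + 3 : ℕ) : ℤ) := by
        push_cast
        ring
      rw [h1, Int.toNat_natCast]
    rw [this]
  have hsec : ∀ p ∈ I, ∃ x y z : ℤ[X], Pool.Agent.X323.ES.Sec p.1 p.2 (D * 4 ^ j - 1) x y z := by
    intro p hp
    rw [hI, Finset.mem_product, Finset.mem_Icc, Finset.mem_Icc] at hp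
    exact hD j p.1 p.2 (abs_le.2 hp.1) (abs_le.2 hp.2)
  choose! x y z hxyz using hsec
  have hinj : Set.InjOn (fun p => (![x p, y p, z p] : Fin 3 → ℤ[X])) I := by
    intro p hp p' hp' h
    have hy : y p = y p' := congrFun h 1
    have hz : z p = z p' := congrFun h 2
    obtain ⟨h2, h3⟩ := Pool.Agent.X323.ES.index_eq (hxyz p hp) (hxyz p' hp') (by rw [hy, hz])
    exact Prod.ext h2 h3
  have hcard : (I.image fun p => (![x p, y p, z p] : Fin 3 → ℤ[X])).card = (2 * 2 ^ j + 3) ^ 2 := by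
    rw [Finset.card_image_of_injOn hinj, hIcard]
  have h4 : (4 : ℝ) ^ j = 2 ^ j * 2 ^ j := by
    rw [← mul_pow]
    norm_num
  have hbound : 1 / (3 * (D : ℝ)) / ε ≤ 4 * 4 ^ j / 3 := by
    rw [div_div, div_le_div_iff₀ (by positivity) (by norm_num)]
    rw [pow_succ] at hj2
    nlinarith
  refine ⟨I.image fun p => ![x p, y p, z p], ?_, ?_, ?_, ?_⟩
  · rw [hcard]
    push_cast
    have h5 : (0 : ℝ) < 2 ^ j := by positivity
    nlinarith
  · intro σ hσ
    obtain ⟨p, hp, rfl⟩ := Finset.mem_image.1 hσ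
    refine ⟨?_, ?_⟩
    · intro h0
      have h1 : y p = 0 := congrFun h0 1
      have h2 := (hxyz p hp).e3
      rw [h1, eval_zero] at h2
      exact h2 rfl
    · rw [surface_eq]
      exact (hxyz p hp).eq
  · intro σ hσ τ hτ hne
    obtain ⟨p, hp, rfl⟩ := Finset.mem_image.1 hσ
    obtain ⟨p', hp', rfl⟩ := Finset.mem_image.1 hτ
    refine ⟨1, 2, fun h => hne ?_⟩
    have h1 : y p * z p' = y p' * z p := by
      have h2 : y p * z p' = z p * y p' := h
      rw [h2, mul_comm]
    obtain ⟨h2, h3⟩ := Pool.Agent.X323.ES.index_eq (hxyz p hp) (hxyz p' hp') h1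
    have : p = p' := Prod.ext h2 h3
    rw [this]
  · intro G g C hG hV
    have hvan : ∀ p ∈ I, MvPolynomial.eval ![x p, y p, z p] G = 0 := fun p hp =>
      Pool.Agent.X323.ES.vanish (hxyz p hp) G g hG ε C hε.le hn fun q v hq hv hs hG' =>
        hV.int q v hq hv hs hG'
    refine ⟨?_, ?_⟩
    · intro σ hσ
      obtain ⟨p, hp, rfl⟩ := Finset.mem_image.1 hσ
      exact hvan p hp
    · rintro ⟨t, v, hv, hv2, hGv⟩
      have hvv : v = ![v 0, v 1, v 2] := by
        funext i
        fin_cases i <;> rfl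
      have h5 := Pool.Agent.X323.ES.count G g hG t (v 0) (v 1) (v 2) hv2 ?_ ?_ I (D * 4 ^ j - 1)
        fun p hp => ⟨x p, y p, z p, hxyz p hp, hvan p hp⟩
      · rw [hIcard] at h5
        have h6 : (((2 * 2 ^ j + 3) ^ 2 : ℕ) : ℝ) ≤ ((3 * g + 6 : ℕ) : ℝ) := by exact_mod_cast h5
        push_cast at h6
        have h7 : (0 : ℝ) < 2 ^ j := by positivity
        nlinarith
      · rw [← hv]
        unfold surface Pool.Agent.X323.ES.pa Pool.Agent.X323.ES.pb Pool.Agent.X323.ES.pc
        simp [eval₂_pow]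
      · rw [← hvv]
        exact hGv

end Pool.Agent.Results.MP_17a322_nt.WithoutDivisor
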